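import Mathlib

/-!
Row Box (about 140 lines, Mathlib only): sets of box dimension at most d.

DEFINITION. BoxCov A d: for every m ≥ 1 the set A is divided into at most N m^d classes, each of diameter ≤ L / m.

PROOFS.
* box_mono: same data.
* box_singleton: L = 0, N = 1, κ = 0.
* box_union: L = max, N = N₁ + N₂, κ x = κ₁ x if x ∈ A, else N₁ m^d + κ₂ x (decide by classical; if κ x = κ y then x, y are both in A or both not in A, since κ₁ x < N₁ m^d on A).
* box_iUnion: induction on the finite type/set (Set.Finite.induction_on for the range, or Finset.induction_on over Finset.univ with ⋃ i ∈ s), the empty set has BoxCov with N = 0.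
* box_cube: C ≥ 0 the Lipschitz constant. For x in the image choose z(x) in the cube with φ (z x) = x (Function: if h : x ∈ φ '' Icc 0 1 then h.choose else 0). Class of x: k(x) : ι → Fin m, k(x) i = min ⌊m z_i⌋₊ (m-1);
  κ x := Fintype.equivFin (ι → Fin m) (k x), < card (ι → Fin m) = m ^ card ι (Fintype.card_pi_const / Fintype.card_fun, Fintype.card_fin). If k x = k y then |z(x)_i - z(y)_i| ≤ 1/m for every i:
  both m z_i lie in [k, k+1] (for k < m - 1: k ≤ m z_i < k + 1 by the floor; for k = m - 1: m - 1 ≤ m z_i ≤ m). So dist (z x) (z y) ≤ 1/m (dist_pi_le_iff) and dist x y ≤ C / m. L = C, N = 1.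
-/

namespace H17PIT

/-- box dimension at most `d`, with explicit classes -/
def BoxCov {E : Type*} [PseudoMetricSpace E] (A : Set E) (d : ℕ) : Prop :=
  ∃ (L : ℝ) (N : ℕ), 0 ≤ L ∧ ∀ m : ℕ, 0 < m → ∃ κ : E → ℕ, (∀ x ∈ A, κ x < N * m ^ d) ∧
    ∀ x ∈ A, ∀ y ∈ A, κ x = κ y → dist x y ≤ L / m

theorem box_mono {E : Type*} [PseudoMetricSpace E] {A B : Set E} {d : ℕ} (h : A ⊆ B)
    (hB : BoxCov B d) : BoxCov A d := by
  obtain ⟨L, N, hL, hm⟩ := hB
  refine ⟨L, N, hL, fun m hm0 => ?_⟩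
  obtain ⟨κ, h1, h2⟩ := hm m hm0
  exact ⟨κ, fun x hx => h1 x (h hx), fun x hx y hy => h2 x (h hx) y (h hy)⟩

theorem box_singleton {E : Type*} [PseudoMetricSpace E] (a : E) (d : ℕ) :
    BoxCov ({a} : Set E) d := by
  refine ⟨0, 1, le_rfl, fun m hm0 => ⟨fun _ => 0, ?_, ?_⟩⟩
  · intro x _
    simp only [one_mul]
    exact Nat.pow_pos hm0
  · intro x hx y hy _
    rw [Set.mem_singleton_iff] at hx hy
    rw [hx, hy, dist_self, zero_div]

theorem box_union {E : Type*} [PseudoMetricSpace E] {A B : Set E} {d : ℕ}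
    (hA : BoxCov A d) (hB : BoxCov B d) : BoxCov (A ∪ B) d := by
  classical
  obtain ⟨L₁, N₁, hL₁, hm₁⟩ := hA
  obtain ⟨L₂, N₂, hL₂, hm₂⟩ := hB
  refine ⟨max L₁ L₂, N₁ + N₂, le_max_of_le_left hL₁, fun m hm0 => ?_⟩
  obtain ⟨κ₁, h1, h2⟩ := hm₁ m hm0
  obtain ⟨κ₂, h3, h4⟩ := hm₂ m hm0
  have hmr : (0 : ℝ) < m := by exact_mod_cast hm0
  refine ⟨fun x => if x ∈ A then κ₁ x else N₁ * m ^ d + κ₂ x, ?_, ?_⟩
  · intro x hx
    simp only
    split_ifs with hxA
    · have := h1 x hxA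
      rw [add_mul]
      omega
    · have := h3 x (hx.resolve_left hxA)
      rw [add_mul]
      omega
  · intro x hx y hy hxy
    simp only at hxy
    by_cases hxA : x ∈ A
    · by_cases hyA : y ∈ A
      · rw [if_pos hxA, if_pos hyA] at hxy
        refine (h2 x hxA y hyA hxy).trans ?_
        exact div_le_div_of_nonneg_right (le_max_left _ _) hmr.le
      · rw [if_pos hxA, if_neg hyA] at hxy
        have := h1 x hxA
        omega
    · by_cases hyA : y ∈ A
      · rw [if_neg hxA, if_pos hyA] at hxy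
        have := h1 y hyA
        omega
      · rw [if_neg hxA, if_neg hyA] at hxy
        refine (h4 x (hx.resolve_left hxA) y (hy.resolve_left hyA) (by omega)).trans ?_
        exact div_le_div_of_nonneg_right (le_max_right _ _) hmr.le

theorem box_empty {E : Type*} [PseudoMetricSpace E] (d : ℕ) : BoxCov (∅ : Set E) d := by
  refine ⟨0, 0, le_rfl, fun m hm0 => ⟨fun _ => 0, ?_, ?_⟩⟩
  · intro x hx
    exact absurd hx (Set.notMem_empty x)
  · intro x hx
    exact absurd hx (Set.notMem_empty x)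

theorem box_iUnion {E : Type*} [PseudoMetricSpace E] {ι : Type*} [Finite ι] {A : ι → Set E}
    {d : ℕ} (hA : ∀ i, BoxCov (A i) d) : BoxCov (⋃ i, A i) d := by
  classical
  have : Fintype ι := Fintype.ofFinite ι
  have h1 : ∀ s : Finset ι, BoxCov (⋃ i ∈ s, A i) d := by
    intro s
    induction s using Finset.induction_on with
    | empty =>
      simp only [Finset.notMem_empty, Set.iUnion_of_empty, Set.iUnion_empty]
      exact box_empty d
    | insert a s ha ih =>
      rw [Finset.set_biUnion_insert]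
      exact box_union (hA a) ih
  refine box_mono ?_ (h1 Finset.univ)
  intro x hx
  simpa using hx

theorem box_floor (m : ℕ) (hm : 0 < m) (u v : ℝ) (hu0 : 0 ≤ u) (hu1 : u ≤ 1) (hv0 : 0 ≤ v)
    (hv1 : v ≤ 1) (h : min ⌊(m : ℝ) * u⌋₊ (m - 1) = min ⌊(m : ℝ) * v⌋₊ (m - 1)) :
    |u - v| ≤ 1 / m := by
  have hmr : (0 : ℝ) < m := by exact_mod_cast hm
  have key : ∀ w : ℝ, 0 ≤ w → w ≤ 1 → ((min ⌊(m : ℝ) * w⌋₊ (m - 1) : ℕ) : ℝ) ≤ m * w ∧
      (m : ℝ) * w ≤ ((min ⌊(m : ℝ) * w⌋₊ (m - 1) : ℕ) : ℝ) + 1 := by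
    intro w hw0 hw1
    have hmw : 0 ≤ (m : ℝ) * w := mul_nonneg hmr.le hw0
    constructor
    · calc ((min ⌊(m : ℝ) * w⌋₊ (m - 1) : ℕ) : ℝ) ≤ (⌊(m : ℝ) * w⌋₊ : ℝ) := by
            exact_mod_cast min_le_left _ _
        _ ≤ m * w := Nat.floor_le hmw
    · rcases le_total ⌊(m : ℝ) * w⌋₊ (m - 1) with hle | hle
      · rw [min_eq_left hle]
        exact (Nat.lt_floor_add_one _).le
      · rw [min_eq_right hle]
        have : ((m - 1 : ℕ) : ℝ) + 1 = m := by
          rw [Nat.cast_sub hm]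
          push_cast
          ring
        rw [this]
        nlinarith
  obtain ⟨a1, a2⟩ := key u hu0 hu1
  obtain ⟨b1, b2⟩ := key v hv0 hv1
  rw [h] at a1 a2
  rw [abs_le, ← sub_nonneg]
  constructor
  · have : 0 ≤ (m : ℝ) * (u - v - -(1 / m)) := by
      have e : (m : ℝ) * (u - v - -(1 / m)) = m * u - m * v + 1 := by
        field_simp
        ring
      rw [e]
      linarith
    exact nonneg_of_mul_nonneg_right this hmr
  · rw [← sub_nonneg]
    have : 0 ≤ (m : ℝ) * (1 / m - (u - v)) := by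
      have e : (m : ℝ) * (1 / m - (u - v)) = 1 - m * u + m * v := by
        field_simp
        ring
      rw [e]
      linarith
    exact nonneg_of_mul_nonneg_right this hmr

theorem box_cube {E : Type*} [PseudoMetricSpace E] {ι : Type*} [Fintype ι] (C : NNReal)
    (φ : (ι → ℝ) → E) (hφ : LipschitzOnWith C φ (Set.Icc 0 1)) :
    BoxCov (φ '' Set.Icc 0 1) (Fintype.card ι) := by
  classical
  refine ⟨C, 1, C.2, fun m hm0 => ?_⟩
  have hmr : (0 : ℝ) < m := by exact_mod_cast hm0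
  have hz : ∀ x : E, ∃ z : ι → ℝ, x ∈ φ '' Set.Icc 0 1 → z ∈ Set.Icc (0 : ι → ℝ) 1 ∧ φ z = x := by
    intro x
    by_cases hx : x ∈ φ '' Set.Icc 0 1
    · obtain ⟨z, hz1, hz2⟩ := hx
      exact ⟨z, fun _ => ⟨hz1, hz2⟩⟩
    · exact ⟨0, fun h => absurd h hx⟩
  choose z hz using hz
  have hk : ∀ (x : E) (i : ι), min ⌊(m : ℝ) * z x i⌋₊ (m - 1) < m := by
    intro x i
    have := min_le_right ⌊(m : ℝ) * z x i⌋₊ (m - 1)
    omega
  refine ⟨fun x => (Fintype.equivFin (ι → Fin m)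
    (fun i => ⟨min ⌊(m : ℝ) * z x i⌋₊ (m - 1), hk x i⟩) : Fin _), ?_, ?_⟩
  · intro x _
    have h1 := (Fintype.equivFin (ι → Fin m)
      (fun i => ⟨min ⌊(m : ℝ) * z x i⌋₊ (m - 1), hk x i⟩)).2
    rw [one_mul]
    calc _ < Fintype.card (ι → Fin m) := h1
      _ = m ^ Fintype.card ι := by
        rw [Fintype.card_fun, Fintype.card_fin]
  · intro x hx y hy hxy
    have h1 := Fin.ext hxy
    have h2 := (Fintype.equivFin (ι → Fin m)).injective h1
    obtain ⟨hzx, hφx⟩ := hz x hx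
    obtain ⟨hzy, hφy⟩ := hz y hy
    have h3 : dist (z x) (z y) ≤ 1 / m := by
      rw [dist_pi_le_iff (by positivity)]
      intro i
      have h4 := congrFun h2 i
      have h5 : min ⌊(m : ℝ) * z x i⌋₊ (m - 1) = min ⌊(m : ℝ) * z y i⌋₊ (m - 1) :=
        congrArg Fin.val h4
      rw [Real.dist_eq]
      exact box_floor m hm0 _ _ (hzx.1 i) (hzx.2 i) (hzy.1 i) (hzy.2 i) h5
    calc dist x y = dist (φ (z x)) (φ (z y)) := by rw [hφx, hφy]
      _ ≤ C * dist (z x) (z y) := hφ.dist_le_mul _ hzx _ hzy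
      _ ≤ C * (1 / m) := mul_le_mul_of_nonneg_left h3 C.2
      _ = C / m := by ring

end H17PIT
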