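import Pool.Agent.H17.PIT.Box

/-!
Row Cell (about 170 lines, Mathlib only): volume against number of lattice points, the difference being at most the number of lattice points near the frontier.

PROOF. Take a ℤ-basis: b₀ := IsZLattice / Module.Free.chooseBasis ℤ Λ, b := b₀.ofZLatticeBasis ℝ Λ, F := ZSpan.fundamentalDomain b (bounded: ZSpan.fundamentalDomain_isBounded, measurable: ZSpan.fundamentalDomain_measurableSet);
 ZLattice.covolume Λ μ = μ.real F (ZLattice.covolume_eq_measure_fundamentalDomain with ZLattice.isAddFundamentalDomain, or ZLattice.covolume_eq_det...: the first is right). span ℤ (range b) = Λ (Basis.ofZLatticeBasis_span).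
 R := a bound for the norms of the elements of F (R ≥ 0). Every x ∈ E is v + f with v = ZSpan.floor b x ∈ Λ, f = ZSpan.fract b x ∈ F, and the sets v + F (v ∈ Λ) are pairwise disjoint (ZSpan.fract_add_... / uniqueness: ZSpan.exist_unique_vadd_mem_fundamentalDomain).
 Fix t > 0, T := t • D, G := {v ∈ Λ : v ∈ T}, B := {v ∈ Λ : ∃ a ∈ frontier D, dist v (t • a) ≤ R} (finite by hypothesis).
 (0) if p ∈ T and q ∉ T then the segment [p, q] contains a point of frontier T: the segment is preconnected (convex) and meets T and its complement (IsPreconnected.inter_frontier_nonempty or the lemma isPreconnected_iff / `frontier`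
     version: IsPreconnected.inter_frontier_nonempty hs (s ∩ u).Nonempty (s ∩ uᶜ).Nonempty). frontier T = t • frontier D (Homeomorph.smulOfNeZero / frontier_smul₀). A point y of the segment has dist p y ≤ dist p q and dist q y ≤ dist p q (segment in a ball:
     (convex_closedBall _ _).segment_subset).
 (1) T ⊆ ⋃_{v ∈ G ∪ B} (v + F): x ∈ T, v = floor x; if v ∉ T then by (0) with p = x, q = v some y = t • a, a ∈ frontier D, dist v y ≤ dist v x ≤ R, so v ∈ B.
 (2) for v ∈ G \ B: v + F ⊆ T: otherwise x ∈ v + F, x ∉ T, (0) gives v ∈ B.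
 (3) G is finite: T is bounded and Λ is discrete (as in row Lat: Metric.finite_isBounded_inter_isClosed).
 μ (v + F) = μ F (measure_preimage_add / measure_vadd), so by (1) μ.real T ≤ (#G + #B) μ.real F (measure_biUnion_finset_le) and by (2) and disjointness (#G - #B) μ.real F ≤ #(G \ B) μ.real F ≤ μ.real T (measure_biUnion_finset).
 μ.real T = t^n μ.real D (Measure.addHaar_smul). Divide by μ.real F > 0 (ZLattice.covolume_pos).
-/

open MeasureTheory Module

open scoped Pointwise

namespace H17PIT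

theorem cell_cross {E : Type*} [NormedAddCommGroup E] [NormedSpace ℝ E] (T : Set E) (p q : E)
    (hp : p ∈ T) (hq : q ∉ T) : ∃ y ∈ frontier T, dist p y ≤ dist p q ∧ dist q y ≤ dist p q := by
  have hconn : IsPreconnected (segment ℝ p q) := (convex_segment p q).isPreconnected
  have hex : ∃ y ∈ segment ℝ p q, y ∈ frontier T := by
    by_contra hcon
    push Not at hcon
    have h1 : segment ℝ p q ⊆ interior T ∪ (closure T)ᶜ := by
      intro x hx
      by_cases hc : x ∈ closure T
      · left
        by_contra hi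
        exact hcon x hx ⟨hc, hi⟩
      · right
        exact hc
    have h2 : (segment ℝ p q ∩ interior T).Nonempty := by
      refine ⟨p, left_mem_segment ℝ p q, ?_⟩
      by_contra hi
      exact hcon p (left_mem_segment ℝ p q) ⟨subset_closure hp, hi⟩
    have h3 : (segment ℝ p q ∩ (closure T)ᶜ).Nonempty := by
      refine ⟨q, right_mem_segment ℝ p q, ?_⟩
      intro hc
      exact hcon q (right_mem_segment ℝ p q) ⟨hc, fun hi => hq (interior_subset hi)⟩
    obtain ⟨z, _, hz1, hz2⟩ := hconn _ _ isOpen_interior isClosed_closure.isOpen_compl h1 h2 h3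
    exact hz2 (interior_subset_closure hz1)
  obtain ⟨y, hy, hyf⟩ := hex
  refine ⟨y, hyf, ?_, ?_⟩
  · have h1 : segment ℝ p q ⊆ Metric.closedBall p (dist p q) := by
      apply (convex_closedBall p (dist p q)).segment_subset
      · exact Metric.mem_closedBall_self dist_nonneg
      · rw [Metric.mem_closedBall, dist_comm]
    have := h1 hy
    rwa [Metric.mem_closedBall, dist_comm] at this
  · have h1 : segment ℝ p q ⊆ Metric.closedBall q (dist p q) := by
      apply (convex_closedBall q (dist p q)).segment_subset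
      · rw [Metric.mem_closedBall]
      · exact Metric.mem_closedBall_self dist_nonneg
    have := h1 hy
    rwa [Metric.mem_closedBall, dist_comm] at this

theorem cell_frontier {E : Type*} [NormedAddCommGroup E] [NormedSpace ℝ E] (D : Set E) (t : ℝ)
    (ht : t ≠ 0) (y : E) (hy : y ∈ frontier (t • D)) : ∃ a ∈ frontier D, y = t • a := by
  have h1 := (Homeomorph.smulOfNeZero t ht : E ≃ₜ E).image_frontier D
  have h2 : (Homeomorph.smulOfNeZero t ht : E ≃ₜ E) '' D = t • D := rfl
  rw [h2] at h1
  rw [← h1] at hy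
  obtain ⟨a, ha, rfl⟩ := hy
  exact ⟨a, ha, rfl⟩

theorem cell_err {E : Type*} [NormedAddCommGroup E] [NormedSpace ℝ E] [FiniteDimensional ℝ E]
    [MeasurableSpace E] [BorelSpace E] (μ : Measure E) [μ.IsAddHaarMeasure]
    (Λ : Submodule ℤ E) [DiscreteTopology Λ] [IsZLattice ℝ Λ] (D : Set E)
    (hD : MeasurableSet D) (hb : Bornology.IsBounded D) :
    ∃ R : ℝ, ∀ t : ℝ, 0 < t →
      {v : E | v ∈ Λ ∧ ∃ a ∈ frontier D, dist v (t • a) ≤ R}.Finite →
      |(Nat.card {v : E // v ∈ Λ ∧ v ∈ t • D} : ℝ) -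
        μ.real D / ZLattice.covolume Λ μ * t ^ finrank ℝ E| ≤
        ({v : E | v ∈ Λ ∧ ∃ a ∈ frontier D, dist v (t • a) ≤ R}.ncard : ℝ) := by
  classical
  obtain ⟨b, hbs⟩ : ∃ b : Basis (Module.Free.ChooseBasisIndex ℤ Λ) ℝ E,
      b = (Module.Free.chooseBasis ℤ Λ).ofZLatticeBasis ℝ Λ := ⟨_, rfl⟩
  have hspan : Submodule.span ℤ (Set.range b) = Λ := by
    rw [hbs]
    exact (Module.Free.chooseBasis ℤ Λ).ofZLatticeBasis_span ℝ
  obtain ⟨F, hF⟩ : ∃ F, F = ZSpan.fundamentalDomain b := ⟨_, rfl⟩
  have hcov : ZLattice.covolume Λ μ = μ.real F := by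
    rw [hF, hbs]
    exact ZLattice.covolume_eq_measure_fundamentalDomain Λ μ
      (ZLattice.isAddFundamentalDomain (Module.Free.chooseBasis ℤ Λ) μ)
  have hcovpos := ZLattice.covolume_pos Λ μ
  have hFb : Bornology.IsBounded F := by
    rw [hF]
    exact ZSpan.fundamentalDomain_isBounded b
  have hFm : MeasurableSet F := by
    rw [hF]
    exact ZSpan.fundamentalDomain_measurableSet b
  obtain ⟨R, hR⟩ := isBounded_iff_forall_norm_le.mp hFb
  refine ⟨R, ?_⟩
  intro t ht hBfin
  obtain ⟨T, hT⟩ : ∃ T, T = t • D := ⟨_, rfl⟩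
  have hTb : Bornology.IsBounded T := by
    rw [hT]
    exact hb.smul₀ t
  have hTm : MeasurableSet T := by
    rw [hT]
    exact hD.const_smul₀ t
  have hGfin : {v : E | v ∈ Λ ∧ v ∈ T}.Finite := by
    have h1 := ZSpan.setFinite_inter b hTb
    rw [hspan] at h1
    refine h1.subset ?_
    intro v hv
    exact ⟨hv.2, hv.1⟩
  obtain ⟨G, hG⟩ : ∃ G : Finset E, G = hGfin.toFinset := ⟨_, rfl⟩
  obtain ⟨B, hB⟩ : ∃ B : Finset E, B = hBfin.toFinset := ⟨_, rfl⟩
  have hGm : ∀ v, v ∈ G ↔ v ∈ Λ ∧ v ∈ T := by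
    intro v
    rw [hG, Set.Finite.mem_toFinset]
    rfl
  have hBm : ∀ v, v ∈ B ↔ v ∈ Λ ∧ ∃ a ∈ frontier D, dist v (t • a) ≤ R := by
    intro v
    rw [hB, Set.Finite.mem_toFinset]
    rfl
  obtain ⟨cell, hcell⟩ : ∃ cell : E → Set E, cell = fun v => (fun x => x + -v) ⁻¹' F := ⟨_, rfl⟩
  have hcm : ∀ v x, x ∈ cell v ↔ x - v ∈ F := by
    intro v x
    rw [hcell, sub_eq_add_neg]
    rfl
  have hcmeas : ∀ v, MeasurableSet (cell v) := by
    intro v
    rw [hcell]
    exact hFm.preimage (measurable_id.add_const _)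
  have hcvol : ∀ v, μ.real (cell v) = μ.real F := by
    intro v
    rw [hcell, measureReal_def, measureReal_def]
    simp only
    rw [measure_preimage_add_right]
  have hcuniq : ∀ v ∈ Λ, ∀ x ∈ cell v, v = x - ZSpan.fract b x := by
    intro v hv x hx
    rw [hcm, hF] at hx
    have h1 : ZSpan.fract b (x - v) = x - v := (ZSpan.fract_eq_self).mpr hx
    have h2 : ZSpan.fract b x = ZSpan.fract b (x - v) := by
      rw [← hspan] at hv
      have := ZSpan.fract_add_ZSpan b (x - v) hv
      rwa [sub_add_cancel] at this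
    rw [h2, h1]
    abel
  have hdisj : ∀ s : Finset E, (∀ v ∈ s, v ∈ Λ) → (s : Set E).PairwiseDisjoint cell := by
    intro s hs v hv w hw hvw
    rw [Function.onFun, Set.disjoint_left]
    intro x hx1 hx2
    apply hvw
    rw [hcuniq v (hs v hv) x hx1, hcuniq w (hs w hw) x hx2]
  have hnormR : ∀ v x, x ∈ cell v → dist x v ≤ R := by
    intro v x hx
    rw [dist_eq_norm]
    exact hR _ ((hcm v x).mp hx)
  have h1 : T ⊆ ⋃ v ∈ G ∪ B, cell v := by
    intro x hx
    have hvΛ : ((ZSpan.floor b x : Submodule.span ℤ (Set.range b)) : E) ∈ Λ := by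
      have hmem : ∀ z : E, z ∈ Submodule.span ℤ (Set.range b) → z ∈ Λ := by
        intro z hz
        rw [hspan] at hz
        exact hz
      exact hmem _ (ZSpan.floor b x).2
    obtain ⟨v, hv⟩ : ∃ v : E, v = ((ZSpan.floor b x : Submodule.span ℤ (Set.range b)) : E) :=
      ⟨_, rfl⟩
    rw [← hv] at hvΛ
    have hxc : x ∈ cell v := by
      rw [hcm, hv, hF, ← ZSpan.fract_apply]
      exact ZSpan.fract_mem_fundamentalDomain b x
    simp only [Set.mem_iUnion, Finset.mem_union]
    refine ⟨v, ?_, hxc⟩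
    by_cases hvT : v ∈ T
    · left
      exact (hGm v).mpr ⟨hvΛ, hvT⟩
    · right
      obtain ⟨y, hy, _, hd⟩ := cell_cross T x v hx hvT
      rw [hT] at hy
      obtain ⟨a, ha, rfl⟩ := cell_frontier D t ht.ne' y hy
      exact (hBm v).mpr ⟨hvΛ, a, ha, hd.trans (hnormR v x hxc)⟩
  have h2 : (⋃ v ∈ G \ B, cell v) ⊆ T := by
    intro x hx
    simp only [Set.mem_iUnion, Finset.mem_sdiff] at hx
    obtain ⟨v, ⟨hvG, hvB⟩, hxc⟩ := hx
    obtain ⟨hvΛ, hvT⟩ := (hGm v).mp hvG
    by_contra hxT
    apply hvB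
    obtain ⟨y, hy, hd, _⟩ := cell_cross T v x hvT hxT
    rw [hT] at hy
    obtain ⟨a, ha, rfl⟩ := cell_frontier D t ht.ne' y hy
    refine (hBm v).mpr ⟨hvΛ, a, ha, hd.trans ?_⟩
    rw [dist_comm]
    exact hnormR v x hxc
  have hTfin : μ T ≠ ⊤ := hTb.measure_lt_top.ne
  have hFpos : 0 < μ.real F := by
    rw [← hcov]
    exact hcovpos
  have hcfin : ∀ v, μ (cell v) ≠ ⊤ := by
    intro v h0
    have := hcvol v
    rw [measureReal_def, h0] at this
    simp at this
    linarith
  have hup : μ.real T ≤ ((G.card : ℝ) + B.card) * μ.real F := by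
    calc μ.real T ≤ μ.real (⋃ v ∈ G ∪ B, cell v) := by
          refine measureReal_mono h1 ?_
          refine ne_of_lt (lt_of_le_of_lt (measure_biUnion_finset_le _ _) ?_)
          exact ENNReal.sum_lt_top.mpr (fun v _ => (hcfin v).lt_top)
      _ ≤ ∑ v ∈ G ∪ B, μ.real (cell v) := measureReal_biUnion_finset_le _ _
      _ = (G ∪ B).card * μ.real F := by
          rw [Finset.sum_congr rfl (fun v _ => hcvol v), Finset.sum_const, nsmul_eq_mul]
      _ ≤ ((G.card : ℝ) + B.card) * μ.real F := by
          apply mul_le_mul_of_nonneg_right _ hFpos.le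
          exact_mod_cast Finset.card_union_le G B
  have hlow : ((G.card : ℝ) - B.card) * μ.real F ≤ μ.real T := by
    calc ((G.card : ℝ) - B.card) * μ.real F ≤ (G \ B).card * μ.real F := by
          apply mul_le_mul_of_nonneg_right _ hFpos.le
          have h3 := Finset.le_card_sdiff B G
          have h4 : (G.card : ℝ) ≤ (G \ B).card + B.card := by
            have : G.card ≤ (G \ B).card + B.card := by omega
            exact_mod_cast this
          linarith
      _ = ∑ v ∈ G \ B, μ.real (cell v) := by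
          rw [Finset.sum_congr rfl (fun v _ => hcvol v), Finset.sum_const, nsmul_eq_mul]
      _ = μ.real (⋃ v ∈ G \ B, cell v) := by
          refine (measureReal_biUnion_finset (hdisj _ ?_) (fun v _ => hcmeas v)
            (fun v _ => hcfin v)).symm
          intro v hv
          exact ((hGm v).mp (Finset.mem_sdiff.mp hv).1).1
      _ ≤ μ.real T := measureReal_mono h2 hTfin
  have hvolT : μ.real T = t ^ finrank ℝ E * μ.real D := by
    rw [hT, measureReal_def, Measure.addHaar_smul_of_nonneg μ ht.le, ENNReal.toReal_mul,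
      ENNReal.toReal_ofReal (by positivity), measureReal_def]
  have hGcard : (Nat.card {v : E // v ∈ Λ ∧ v ∈ t • D} : ℝ) = G.card := by
    have h3 : Nat.card {v : E // v ∈ Λ ∧ v ∈ t • D} = {v : E | v ∈ Λ ∧ v ∈ T}.ncard := by
      rw [hT]
      exact Nat.card_coe_set_eq _
    rw [h3, Set.ncard_eq_toFinset_card _ hGfin, hG]
  have hBcard : ({v : E | v ∈ Λ ∧ ∃ a ∈ frontier D, dist v (t • a) ≤ R}.ncard : ℝ) = B.card := by
    rw [Set.ncard_eq_toFinset_card _ hBfin, hB]
  rw [hGcard, hBcard, hcov]
  have h5 : μ.real D / μ.real F * t ^ finrank ℝ E = μ.real T / μ.real F := by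
    rw [hvolT]
    ring
  rw [h5, abs_le]
  constructor
  · have : μ.real T / μ.real F ≤ (G.card : ℝ) + B.card := by
      rw [div_le_iff₀ hFpos]
      exact hup
    linarith
  · have : (G.card : ℝ) - B.card ≤ μ.real T / μ.real F := by
      rw [le_div_iff₀ hFpos]
      exact hlow
    linarith

end H17PIT
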