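import Mathlib

/-! Definitions for the prime ideal theorem (no row). -/

open NumberField

namespace H17PIT

/-- number of ideals of norm `k` -/
noncomputable def aK (K : Type*) [Field K] [NumberField K] (k : ℕ) : ℕ :=
  Nat.card {I : Ideal (𝓞 K) // Ideal.absNorm I = k}

open Classical in
/-- von Mangoldt function on ideals -/
noncomputable def vMI {K : Type*} [Field K] [NumberField K] (I : Ideal (𝓞 K)) : ℝ :=
  if h : ∃ P : Ideal (𝓞 K), (P.IsPrime ∧ P ≠ ⊥) ∧ ∃ m : ℕ, 0 < m ∧ I = P ^ m then
    Real.log (Ideal.absNorm h.choose) else 0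

/-- sum of the von Mangoldt function over the ideals of norm `k` -/
noncomputable def LamK (K : Type*) [Field K] [NumberField K] (k : ℕ) : ℝ :=
  ∑ I ∈ (Ideal.finite_setOfPred_absNorm_eq (S := 𝓞 K) k).toFinset, vMI I

/-- number of nonzero prime ideals of norm at most `x` -/
noncomputable def piK (K : Type*) [Field K] [NumberField K] (x : ℝ) : ℕ :=
  Set.ncard {p : Ideal (𝓞 K) | p.IsPrime ∧ p ≠ ⊥ ∧ (Ideal.absNorm p : ℝ) ≤ x}

end H17PIT
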