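import Pool.Agent.H17.PIT.Box

/-!
Row FrA (about 130 lines): Lipschitz parametrisation of the boundary pieces of normLeOne K, and their box dimension.

phiMap K σ : [0,1]^(places + complex places) → mixedSpace K: z (inl w₀) is the scaling factor, z (inl i), i ≠ w₀, the exponents of the fundamental units, z (inr w) the angle at a complex place, σ the signs at the real places.

phi_lip. Every component of phiMap K σ is a product of the smooth functions z (inl w₀), expMapBasis (..) w and exp (2 π i z (inr w)): expMapBasis x w = Real.exp ((w.mult)⁻¹ * ((completeBasis K).equivFun.symm x) w) (expMapBasis_apply, expMap_apply; a linear map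
 on a finite dimensional space is ContDiff: LinearMap.toContinuousLinearMap / (completeBasis K).equivFunL.symm.contDiff, and z ↦ (fun i ↦ if i = w₀ then 0 else z (inl i)) is contDiff_pi with contDiff_const / contDiff_apply). So phiMap K σ is ContDiff ℝ 1
 (ContDiff.prodMk, contDiff_pi, Complex.ofRealCLM.contDiff). Then its fderiv is continuous, so bounded on the compact set Icc 0 1 (IsCompact.exists_bound_of_continuousOn), and Convex.lipschitzOnWith_of_nnnorm_fderiv_le on the convex set Icc 0 1 (convex_Icc) finishes.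
 (Maybe Mathlib has a ready-made lemma: search LipschitzOnWith with IsCompact and ContDiffOn / LocallyLipschitz.)

face_box. Let ι = places ⊕ complex places, j : ι, ι' = {i // i ≠ j}, ins z i = if h : i = j then a else z ⟨i, h⟩ : (ι' → ℝ) → (ι → ℝ). For a ∈ [0,1] the face {z ∈ Icc 0 1 | z j = a} is ins '' Icc 0 1. phiMap K σ ∘ ins is Lipschitz on Icc 0 1
 (ins is 1-Lipschitz: dist_pi_le_iff; LipschitzOnWith.comp). Use box_cube for the map phiMap K σ ∘ ins; Fintype.card ι' = Fintype.card ι - 1 = r1 + 2 r2 - 1 = finrank ℚ K - 1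
 (Fintype.card_subtype_compl / Fintype.card_sum; NumberField.InfinitePlace.card_eq_nrRealPlaces_add_nrComplexPlaces, card_add_two_mul_card_eq_rank; nrComplexPlaces = card {w // IsComplex w}).
-/

open NumberField NumberField.InfinitePlace NumberField.mixedEmbedding
  NumberField.mixedEmbedding.fundamentalCone NumberField.Units NumberField.Units.dirichletUnitTheorem

open scoped Classical

namespace H17PIT

/-- parametrisation of the closure of `normLeOne K` -/
noncomputable def phiMap (K : Type*) [Field K] [NumberField K]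
    (σ : {w : InfinitePlace K // IsReal w} → Bool)
    (z : InfinitePlace K ⊕ {w : InfinitePlace K // IsComplex w} → ℝ) : mixedSpace K :=
  (fun w => (if σ w then (1 : ℝ) else -1) *
      (z (Sum.inl w₀) * expMapBasis (fun i => if i = w₀ then 0 else z (Sum.inl i)) w.1),
   fun w => ((z (Sum.inl w₀) *
      expMapBasis (fun i => if i = w₀ then 0 else z (Sum.inl i)) w.1 : ℝ) : ℂ) *
      Complex.exp (2 * Real.pi * z (Sum.inr w) * Complex.I))

theorem fra_lip {V W : Type*} [NormedAddCommGroup V] [NormedSpace ℝ V] [NormedAddCommGroup W]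
    [NormedSpace ℝ W] (f : V → W) (hf : ContDiff ℝ 1 f) (s : Set V) (hs : IsCompact s)
    (hc : Convex ℝ s) : ∃ C : NNReal, LipschitzOnWith C f s := by
  have h1 : Continuous (fderiv ℝ f) := hf.continuous_fderiv (by norm_num)
  obtain ⟨C, hC⟩ := hs.exists_bound_of_continuousOn h1.continuousOn
  refine ⟨Real.toNNReal C, ?_⟩
  refine Convex.lipschitzOnWith_of_nnnorm_fderiv_le (𝕜 := ℝ) (fun x _ => ?_) (fun x hx => ?_) hc
  · exact (hf.differentiable (by norm_num)) x
  · rw [← NNReal.coe_le_coe, coe_nnnorm]
    exact (hC x hx).trans (Real.le_coe_toNNReal C)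

theorem fra_exp (K : Type*) [Field K] [NumberField K] (w : InfinitePlace K) :
    ContDiff ℝ 1 (fun z : InfinitePlace K ⊕ {w : InfinitePlace K // IsComplex w} → ℝ =>
      expMapBasis (fun i => if i = w₀ then 0 else z (Sum.inl i)) w) := by
  have h1 : ContDiff ℝ 1 (fun z : InfinitePlace K ⊕ {w : InfinitePlace K // IsComplex w} → ℝ =>
      (fun i : InfinitePlace K => if i = w₀ then (0 : ℝ) else z (Sum.inl i))) := by
    rw [contDiff_pi]
    intro i
    by_cases h : i = w₀
    · simp only [if_pos h]
      exact contDiff_const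
    · simp only [if_neg h]
      exact contDiff_apply ℝ ℝ (Sum.inl i)
  have h2 : ContDiff ℝ 1 (fun y : realSpace K => (completeBasis K).equivFun.symm y) :=
    (completeBasis K).equivFunL.symm.contDiff
  have h3 := (contDiff_pi.mp (h2.comp h1)) w
  have h4 : (fun z : InfinitePlace K ⊕ {w : InfinitePlace K // IsComplex w} → ℝ =>
      expMapBasis (fun i => if i = w₀ then 0 else z (Sum.inl i)) w) =
      fun z => Real.exp ((w.mult : ℝ)⁻¹ * ((completeBasis K).equivFun.symm
        (fun i : InfinitePlace K => if i = w₀ then (0 : ℝ) else z (Sum.inl i))) w) := by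
    funext z
    rw [expMapBasis_apply, expMap_apply]
  rw [h4]
  exact (contDiff_const.mul h3).exp

theorem fra_contDiff (K : Type*) [Field K] [NumberField K]
    (σ : {w : InfinitePlace K // IsReal w} → Bool) : ContDiff ℝ 1 (phiMap K σ) := by
  have hz : ContDiff ℝ 1 (fun z : InfinitePlace K ⊕ {w : InfinitePlace K // IsComplex w} → ℝ =>
      z (Sum.inl w₀)) := contDiff_apply ℝ ℝ (Sum.inl w₀)
  unfold phiMap
  refine ContDiff.prodMk ?_ ?_
  · rw [contDiff_pi]
    intro w
    exact contDiff_const.mul (hz.mul (fra_exp K w.1))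
  · rw [contDiff_pi]
    intro w
    refine ContDiff.mul ?_ ?_
    · exact Complex.ofRealCLM.contDiff.comp (hz.mul (fra_exp K w.1))
    · refine ContDiff.cexp ?_
      refine ContDiff.mul (contDiff_const.mul ?_) contDiff_const
      exact Complex.ofRealCLM.contDiff.comp (contDiff_apply ℝ ℝ (Sum.inr w))

theorem phi_lip (K : Type*) [Field K] [NumberField K]
    (σ : {w : InfinitePlace K // IsReal w} → Bool) :
    ∃ C : NNReal, LipschitzOnWith C (phiMap K σ) (Set.Icc 0 1) :=
  fra_lip _ (fra_contDiff K σ) _ isCompact_Icc (convex_Icc 0 1)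

theorem fra_card (K : Type*) [Field K] [NumberField K] :
    Fintype.card (InfinitePlace K ⊕ {w : InfinitePlace K // IsComplex w}) =
      Module.finrank ℚ K := by
  rw [Fintype.card_sum, ← card_add_two_mul_card_eq_rank K,
    card_eq_nrRealPlaces_add_nrComplexPlaces K]
  have : Fintype.card {w : InfinitePlace K // IsComplex w} = nrComplexPlaces K := rfl
  rw [this]
  ring

theorem face_box (K : Type*) [Field K] [NumberField K]
    (σ : {w : InfinitePlace K // IsReal w} → Bool)
    (j : InfinitePlace K ⊕ {w : InfinitePlace K // IsComplex w}) (a : ℝ) (ha : 0 ≤ a)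
    (ha1 : a ≤ 1) :
    BoxCov (phiMap K σ '' {z | z ∈ Set.Icc 0 1 ∧ z j = a}) (Module.finrank ℚ K - 1) := by
  obtain ⟨C, hC⟩ := phi_lip K σ
  obtain ⟨ins, hins⟩ : ∃ ins : ({i : InfinitePlace K ⊕ {w : InfinitePlace K // IsComplex w} //
      i ≠ j} → ℝ) → (InfinitePlace K ⊕ {w : InfinitePlace K // IsComplex w} → ℝ),
      ins = fun z i => if h : i = j then a else z ⟨i, h⟩ := ⟨_, rfl⟩
  have hins1 : ∀ z, ins z j = a := by
    intro z
    rw [hins]
    simp
  have hins2 : ∀ z i (h : i ≠ j), ins z i = z ⟨i, h⟩ := by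
    intro z i h
    rw [hins]
    simp [h]
  have hmap : Set.MapsTo ins (Set.Icc 0 1) (Set.Icc 0 1) := by
    intro z hz
    constructor
    · intro i
      by_cases h : i = j
      · rw [h, hins1]
        exact ha
      · rw [hins2 z i h]
        exact hz.1 ⟨i, h⟩
    · intro i
      by_cases h : i = j
      · rw [h, hins1]
        exact ha1
      · rw [hins2 z i h]
        exact hz.2 ⟨i, h⟩
  have hlip : LipschitzOnWith 1 ins (Set.Icc 0 1) := by
    apply LipschitzWith.lipschitzOnWith
    apply LipschitzWith.of_dist_le_mul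
    intro x y
    rw [NNReal.coe_one, one_mul, dist_pi_le_iff dist_nonneg]
    intro i
    by_cases h : i = j
    · rw [h, hins1, hins1, dist_self]
      exact dist_nonneg
    · rw [hins2 x i h, hins2 y i h]
      exact dist_le_pi_dist x y ⟨i, h⟩
  have h1 := box_cube (C * 1) (phiMap K σ ∘ ins) (hC.comp hlip hmap)
  have hcard : Fintype.card {i : InfinitePlace K ⊕ {w : InfinitePlace K // IsComplex w} //
      i ≠ j} = Module.finrank ℚ K - 1 := by
    rw [← fra_card K, Fintype.card_subtype_compl, Fintype.card_subtype_eq]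
  rw [hcard] at h1
  refine box_mono ?_ h1
  rintro _ ⟨z, ⟨hz, hzj⟩, rfl⟩
  refine ⟨fun i => z i.1, ⟨fun i => hz.1 i.1, fun i => hz.2 i.1⟩, ?_⟩
  simp only [Function.comp]
  congr 1
  funext i
  by_cases h : i = j
  · rw [h, hins1, hzj]
  · rw [hins2 _ i h]

end H17PIT
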