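import Pool.Agent.H17.PIT.FrA

/-!
Row FrB (about 150 lines): the frontier of normLeOne K is covered by the faces, so it has box dimension at most n - 1.

PROOF of frontier_sub. x ∈ frontier = closure \ interior. By closure_normLeOne_subset, normAtAllPlaces x ∈ compactSet K: normAtAllPlaces x = c • expMapBasis y with c ∈ [0,1], y w₀ = 0, y i ∈ [0,1] for i ≠ w₀ (unfold compactSet: Set.mem_smul, Set.mem_image).
 Let z (inl w₀) = c, z (inl i) = y i (i ≠ w₀), z (inr w) = arg (x.2 w) / (2 π) + (if arg (x.2 w) < 0 then 1 else 0) ∈ [0,1] (Complex.arg_le_pi, Complex.neg_pi_lt_arg), σ w = decide (0 ≤ x.1 w).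
 Then phiMap K σ z = x: real w: |x.1 w| = normAtPlace w x = c * expMapBasis y w (normAtAllPlaces_apply, normAtPlace_apply_of_isReal); complex w: x.2 w = ‖x.2 w‖ exp (i arg) (Complex.norm_mul_exp_arg_mul_I, Complex.exp_periodic), ‖x.2 w‖ = normAtPlace w x = c * expMapBasis y w.
 (fun i ↦ if i = w₀ then 0 else z (inl i)) = y. If c = 0 take (j, b) = (w₀, false), if c = 1 take (w₀, true). If 0 < c < 1 and all y i ∈ (0,1) for i ≠ w₀, then y' = Function.update y w₀ (log c) is in interior (paramSet K) (interior_paramSet) and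
 expMapBasis y' = c • expMapBasis y (expMapBasis_apply'', Real.exp_log) = normAtAllPlaces x, so x ∈ normAtAllPlaces ⁻¹' (expMapBasis '' interior (paramSet K)) ⊆ interior (normLeOne K) (subset_interior_normLeOne), a contradiction. So y i ∈ {0,1} for some i ≠ w₀: take (j, b) = (i, _).

box_frontier: box_mono, box_iUnion (three times or over the product type), face_box with a = 0 or 1.
-/

open NumberField NumberField.InfinitePlace NumberField.mixedEmbedding
  NumberField.mixedEmbedding.fundamentalCone NumberField.Units NumberField.Units.dirichletUnitTheorem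

open scoped Classical

namespace H17PIT

/-- angle in `[0, 1]` -/
noncomputable def frbAng (u : ℂ) : ℝ :=
  Complex.arg u / (2 * Real.pi) + (if Complex.arg u < 0 then 1 else 0)

theorem frb_ang_mem (u : ℂ) : 0 ≤ frbAng u ∧ frbAng u ≤ 1 := by
  have h1 := Complex.neg_pi_lt_arg u
  have h2 := Complex.arg_le_pi u
  have hpi := Real.pi_pos
  have h2pi : 0 < 2 * Real.pi := by positivity
  unfold frbAng
  split_ifs with h
  · have h3 : -1 ≤ Complex.arg u / (2 * Real.pi) := by
      rw [le_div_iff₀ h2pi]
      linarith
    have h4 : Complex.arg u / (2 * Real.pi) ≤ 0 := by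
      rw [div_le_iff₀ h2pi]
      linarith
    constructor <;> linarith
  · have h3 : 0 ≤ Complex.arg u / (2 * Real.pi) := by
      rw [le_div_iff₀ h2pi]
      linarith
    have h4 : Complex.arg u / (2 * Real.pi) ≤ 1 := by
      rw [div_le_iff₀ h2pi]
      linarith
    constructor <;> linarith

theorem frb_ang_exp (u : ℂ) :
    ((‖u‖ : ℝ) : ℂ) * Complex.exp (2 * Real.pi * (frbAng u : ℝ) * Complex.I) = u := by
  have hpi : (Real.pi : ℂ) ≠ 0 := by
    rw [Ne, Complex.ofReal_eq_zero]
    exact Real.pi_ne_zero
  have h1 : Complex.exp (2 * Real.pi * (frbAng u : ℝ) * Complex.I) =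
      Complex.exp (Complex.arg u * Complex.I) := by
    unfold frbAng
    split_ifs with h
    · rw [Complex.exp_eq_exp_iff_exists_int]
      refine ⟨1, ?_⟩
      push_cast
      field_simp
    · congr 1
      push_cast
      field_simp
      ring
  rw [h1]
  exact Complex.norm_mul_exp_arg_mul_I u

theorem frontier_sub (K : Type*) [Field K] [NumberField K] :
    frontier (normLeOne K) ⊆ ⋃ (σ : {w : InfinitePlace K // IsReal w} → Bool),
      ⋃ (j : InfinitePlace K), ⋃ (b : Bool),
        phiMap K σ '' {z | z ∈ Set.Icc 0 1 ∧ z (Sum.inl j) = if b then 1 else 0} := by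
  intro x hx
  have hcl : normAtAllPlaces x ∈ compactSet K :=
    closure_normLeOne_subset K (frontier_subset_closure hx)
  obtain ⟨c, hc, _, ⟨y, hy, rfl⟩, hxc⟩ := Set.mem_smul.mp hcl
  have hy0 : y w₀ = 0 := by
    have := hy w₀ (Set.mem_univ _)
    simpa using this
  have hyi : ∀ i, i ≠ w₀ → 0 ≤ y i ∧ y i ≤ 1 := by
    intro i hi
    have := hy i (Set.mem_univ _)
    simpa [hi] using this
  have hval : ∀ w : InfinitePlace K, c * expMapBasis y w = normAtPlace w x := by
    intro w
    have := congrFun hxc w
    rw [Pi.smul_apply, smul_eq_mul] at this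
    rw [this, normAtAllPlaces_apply]
  obtain ⟨z, hz⟩ : ∃ z : InfinitePlace K ⊕ {w : InfinitePlace K // IsComplex w} → ℝ,
      z = Sum.elim (fun i => if i = w₀ then c else y i) (fun w => frbAng (x.2 w)) := ⟨_, rfl⟩
  have hz0 : z (Sum.inl w₀) = c := by
    rw [hz]
    simp
  have hzi : ∀ i, i ≠ w₀ → z (Sum.inl i) = y i := by
    intro i hi
    rw [hz]
    simp [hi]
  have hzr : ∀ w, z (Sum.inr w) = frbAng (x.2 w) := by
    intro w
    rw [hz]
    rfl
  have hzmem : z ∈ Set.Icc (0 : InfinitePlace K ⊕ {w : InfinitePlace K // IsComplex w} → ℝ) 1 := by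
    constructor
    · rintro (i | w)
      · by_cases hi : i = w₀
        · rw [hi, hz0]
          exact hc.1
        · rw [hzi i hi]
          exact (hyi i hi).1
      · rw [hzr]
        exact (frb_ang_mem _).1
    · rintro (i | w)
      · by_cases hi : i = w₀
        · rw [hi, hz0]
          exact hc.2
        · rw [hzi i hi]
          exact (hyi i hi).2
      · rw [hzr]
        exact (frb_ang_mem _).2
  have hzy : (fun i : InfinitePlace K => if i = w₀ then 0 else z (Sum.inl i)) = y := by
    funext i
    by_cases hi : i = w₀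
    · rw [if_pos hi, hi, hy0]
    · rw [if_neg hi, hzi i hi]
  have hphi : phiMap K (fun w => decide (0 ≤ x.1 w)) z = x := by
    unfold phiMap
    rw [hzy, hz0]
    refine Prod.ext ?_ ?_
    · funext w
      simp only
      rw [hval w.1, normAtPlace_apply_of_isReal w.2, Real.norm_eq_abs]
      by_cases h0 : 0 ≤ x.1 w
      · rw [if_pos (by simpa using h0), one_mul, abs_of_nonneg h0]
      · rw [if_neg (by simpa using h0), abs_of_neg (not_le.mp h0)]
        ring
    · funext w
      simp only
      rw [hval w.1, normAtPlace_apply_of_isComplex w.2, hzr]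
      exact frb_ang_exp (x.2 w)
  have hfind : ∃ (j : InfinitePlace K) (b : Bool), z (Sum.inl j) = if b then 1 else 0 := by
    rcases hc.1.eq_or_lt with h0 | h0
    · exact ⟨w₀, false, by rw [hz0]; simpa using h0.symm⟩
    rcases hc.2.eq_or_lt with h1 | h1
    · exact ⟨w₀, true, by rw [hz0]; simpa using h1⟩
    by_contra hcon
    push Not at hcon
    have hyo : ∀ i, i ≠ w₀ → 0 < y i ∧ y i < 1 := by
      intro i hi
      have e1 := hcon i false
      have e2 := hcon i true
      rw [hzi i hi] at e1 e2
      simp only [Bool.false_eq_true, if_false, if_true] at e1 e2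
      obtain ⟨a1, a2⟩ := hyi i hi
      exact ⟨lt_of_le_of_ne a1 (Ne.symm e1), lt_of_le_of_ne a2 e2⟩
    have hint : x ∈ interior (normLeOne K) := by
      apply subset_interior_normLeOne K
      refine ⟨fun i => if i = w₀ then Real.log c else y i, ?_, ?_⟩
      · rw [interior_paramSet]
        intro i _
        by_cases hi : i = w₀
        · simp only [if_pos hi]
          exact Real.log_neg h0 h1
        · simp only [if_neg hi]
          exact hyo i hi
      · rw [expMapBasis_apply'', if_pos rfl, Real.exp_log h0, ← hxc]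
        congr 2
        funext i
        by_cases hi : i = w₀
        · rw [if_pos hi, hi, hy0]
        · rw [if_neg hi, if_neg hi]
    exact hx.2 hint
  obtain ⟨j, b, hjb⟩ := hfind
  simp only [Set.mem_iUnion]
  exact ⟨_, j, b, z, ⟨hzmem, hjb⟩, hphi⟩

theorem box_frontier (K : Type*) [Field K] [NumberField K] :
    BoxCov (frontier (normLeOne K)) (Module.finrank ℚ K - 1) := by
  refine box_mono (frontier_sub K) ?_
  refine box_iUnion (fun σ => box_iUnion (fun j => box_iUnion (fun b => ?_)))
  cases b
  · exact face_box K σ (Sum.inl j) _ (by simp) (by simp)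
  · exact face_box K σ (Sum.inl j) _ (by simp) (by simp)

end H17PIT
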