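import Pool.Agent.H17.PIT.Box

/-!
Row Lat (about 120 lines): lattice points near a set of box dimension d.

lat_ball. The set {u ∈ Λ : ‖u‖ ≤ R} is finite (Λ discrete in a finite dimensional space: e.g. (Metric.finite_isBounded_inter_isClosed DiscreteTopology-instance isBounded isClosed) as used in Mathlib for ZLattices, or
 ZSpan / Submodule version: look at `Metric.finite_isBounded_inter_isClosed`, `AddSubgroup.isClosed_of_discrete`). C := its ncard. For v ∈ Λ the set {u ∈ Λ : dist u v ≤ R} is the image of it under u ↦ u + v (Set.ncard_image_of_injective, Set.Finite.image).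

bad_le. Let L, N be the constants of BoxCov A d, R0 := 2 R + 2 L and C0 the constant of lat_ball for R0. For t ≥ 1 let m := ⌈t⌉₊ (so 1 ≤ t ≤ m ≤ 2 t, m > 0), κ the class function for m. For v in the set
 B = {v ∈ Λ : ∃ a ∈ A, dist v (t • a) ≤ R} choose a(v) ∈ A. If κ (a v) = κ (a w) then dist v w ≤ 2 R + t * dist (a v) (a w) ≤ 2 R + t L / m ≤ 2 R + L (dist_smul₀, t/m ≤ 1). So every fibre of v ↦ κ (a v) on B is contained in
 {u ∈ Λ : dist u v ≤ R0} for each of its members v: finite with at most C0 elements. B = ⋃_{k < N m^d} fibre k is finite (Set.Finite.biUnion over Finset.range) and B.ncard ≤ N m^d C0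
 (Finset.card_le_mul_card_image_of_maps_to, or Finset.card_eq_sum_card_fiberwise with target Finset.range (N m^d)) ≤ N (2 t)^d C0 = (N 2^d C0) t^d.
-/

namespace H17PIT

theorem lat_ball {E : Type*} [NormedAddCommGroup E] [NormedSpace ℝ E] [FiniteDimensional ℝ E]
    (Λ : Submodule ℤ E) [DiscreteTopology Λ] (R : ℝ) :
    ∃ C : ℕ, ∀ v ∈ Λ, {u : E | u ∈ Λ ∧ dist u v ≤ R}.Finite ∧
      {u : E | u ∈ Λ ∧ dist u v ≤ R}.ncard ≤ C := by
  have : ProperSpace E := FiniteDimensional.proper_real E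
  have hfin : (Metric.closedBall (0 : E) R ∩ (Λ : Set E)).Finite := by
    refine Metric.finite_isBounded_inter_isClosed DiscreteTopology.isDiscrete
      Metric.isBounded_closedBall ?_
    rw [← Submodule.coe_toAddSubgroup]
    have : DiscreteTopology Λ.toAddSubgroup := ‹DiscreteTopology Λ›
    exact AddSubgroup.isClosed_of_discrete
  refine ⟨(Metric.closedBall (0 : E) R ∩ (Λ : Set E)).ncard, ?_⟩
  intro v hv
  have himg : {u : E | u ∈ Λ ∧ dist u v ≤ R} ⊆
      (fun x => x + v) '' (Metric.closedBall (0 : E) R ∩ (Λ : Set E)) := by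
    intro u hu
    refine ⟨u - v, ⟨?_, ?_⟩, by simp⟩
    · rw [Metric.mem_closedBall, dist_zero_right, ← dist_eq_norm]
      exact hu.2
    · exact Λ.sub_mem hu.1 hv
  have hfin2 := hfin.image (fun x => x + v)
  refine ⟨hfin2.subset himg, (Set.ncard_le_ncard himg hfin2).trans ?_⟩
  exact Set.ncard_image_le hfin

theorem bad_le {E : Type*} [NormedAddCommGroup E] [NormedSpace ℝ E] [FiniteDimensional ℝ E]
    (Λ : Submodule ℤ E) [DiscreteTopology Λ] (A : Set E) (d : ℕ) (hA : BoxCov A d) (R : ℝ) :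
    ∃ C : ℝ, ∀ t : ℝ, 1 ≤ t → {v : E | v ∈ Λ ∧ ∃ a ∈ A, dist v (t • a) ≤ R}.Finite ∧
      ({v : E | v ∈ Λ ∧ ∃ a ∈ A, dist v (t • a) ≤ R}.ncard : ℝ) ≤ C * t ^ d := by
  classical
  obtain ⟨L, N, hL, hm⟩ := hA
  obtain ⟨C₀, hC₀⟩ := lat_ball Λ (2 * R + L)
  refine ⟨N * 2 ^ d * C₀, ?_⟩
  intro t ht
  obtain ⟨m, hmdef⟩ : ∃ m, m = ⌈t⌉₊ := ⟨_, rfl⟩
  have htm : t ≤ m := by
    rw [hmdef]
    exact Nat.le_ceil t
  have hm0 : 0 < m := by
    have : (0 : ℝ) < m := by linarith
    exact_mod_cast this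
  have hmr : (0 : ℝ) < m := by exact_mod_cast hm0
  have hm2 : (m : ℝ) ≤ 2 * t := by
    rw [hmdef]
    have := Nat.ceil_lt_add_one (by linarith : (0 : ℝ) ≤ t)
    linarith
  obtain ⟨κ, h1, h2⟩ := hm m hm0
  obtain ⟨B, hB⟩ : ∃ B : Set E, B = {v : E | v ∈ Λ ∧ ∃ a ∈ A, dist v (t • a) ≤ R} := ⟨_, rfl⟩
  rw [← hB]
  have hBm : ∀ v ∈ B, v ∈ Λ ∧ ∃ a ∈ A, dist v (t • a) ≤ R := by
    intro v hv
    rw [hB] at hv
    exact hv
  have hc : ∀ v : E, ∃ a : E, v ∈ B → a ∈ A ∧ dist v (t • a) ≤ R := by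
    intro v
    by_cases hv : v ∈ B
    · obtain ⟨_, a, ha, hd⟩ := hBm v hv
      exact ⟨a, fun _ => ⟨ha, hd⟩⟩
    · exact ⟨0, fun h => absurd h hv⟩
  choose a ha using hc
  have hclose : ∀ v ∈ B, ∀ w ∈ B, κ (a v) = κ (a w) → dist w v ≤ 2 * R + L := by
    intro v hv w hw hvw
    obtain ⟨hav, hdv⟩ := ha v hv
    obtain ⟨haw, hdw⟩ := ha w hw
    have h3 := h2 _ hav _ haw hvw
    have h4 : dist (t • a w) (t • a v) ≤ L := by
      rw [dist_smul₀, Real.norm_eq_abs, abs_of_nonneg (by linarith), dist_comm]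
      calc t * dist (a v) (a w) ≤ m * (L / m) :=
            mul_le_mul htm h3 dist_nonneg hmr.le
        _ = L := by field_simp
    calc dist w v ≤ dist w (t • a w) + dist (t • a w) (t • a v) + dist (t • a v) v :=
          dist_triangle4 _ _ _ _
      _ ≤ R + L + R := by
          have : dist (t • a v) v ≤ R := by
            rw [dist_comm]
            exact hdv
          linarith
      _ = 2 * R + L := by ring
  have hfib : ∀ k : ℕ, {v : E | v ∈ B ∧ κ (a v) = k}.Finite ∧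
      {v : E | v ∈ B ∧ κ (a v) = k}.ncard ≤ C₀ := by
    intro k
    by_cases hne : ∃ v, v ∈ B ∧ κ (a v) = k
    · obtain ⟨v, hv, hvk⟩ := hne
      have hsub : {w : E | w ∈ B ∧ κ (a w) = k} ⊆ {u : E | u ∈ Λ ∧ dist u v ≤ 2 * R + L} := by
        intro w hw
        refine ⟨(hBm w hw.1).1, hclose v hv w hw.1 ?_⟩
        rw [hvk, hw.2]
      obtain ⟨h3, h4⟩ := hC₀ v (hBm v hv).1
      exact ⟨h3.subset hsub, (Set.ncard_le_ncard hsub h3).trans h4⟩
    · have : {v : E | v ∈ B ∧ κ (a v) = k} = ∅ := by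
        ext v
        simp only [Set.mem_empty_iff_false, iff_false]
        intro hv
        exact hne ⟨v, hv⟩
      rw [this]
      simp
  have hcov : B ⊆ ⋃ k ∈ Finset.range (N * m ^ d), {v : E | v ∈ B ∧ κ (a v) = k} := by
    intro v hv
    simp only [Set.mem_iUnion, Finset.mem_range]
    exact ⟨κ (a v), h1 _ (ha v hv).1, hv, rfl⟩
  have hUfin : (⋃ k ∈ Finset.range (N * m ^ d), {v : E | v ∈ B ∧ κ (a v) = k}).Finite := by
    apply Set.Finite.biUnion (Finset.finite_toSet _)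
    intro k _
    exact (hfib k).1
  have hBfin : B.Finite := hUfin.subset hcov
  refine ⟨hBfin, ?_⟩
  have hcard : B.ncard ≤ N * m ^ d * C₀ := by
    rw [Set.ncard_eq_toFinset_card _ hBfin]
    have h3 := Finset.card_le_mul_card_image_of_maps_to
      (s := hBfin.toFinset) (t := Finset.range (N * m ^ d)) (f := fun v => κ (a v)) ?_ C₀ ?_
    · rw [Finset.card_range] at h3
      rw [mul_comm]
      exact h3
    · intro v hv
      rw [Set.Finite.mem_toFinset] at hv
      rw [Finset.mem_range]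
      exact h1 _ (ha v hv).1
    · intro k _
      have h4 : ((hBfin.toFinset.filter (fun v => κ (a v) = k) : Finset E) : Set E) =
          {v : E | v ∈ B ∧ κ (a v) = k} := by
        ext v
        simp
      have h5 := (hfib k).2
      rw [← h4, Set.ncard_coe_finset] at h5
      exact h5
  have h6 : (B.ncard : ℝ) ≤ N * (m : ℝ) ^ d * C₀ := by exact_mod_cast hcard
  have h7 : (m : ℝ) ^ d ≤ (2 * t) ^ d := pow_le_pow_left₀ hmr.le hm2 d
  calc (B.ncard : ℝ) ≤ N * (m : ℝ) ^ d * C₀ := h6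
    _ ≤ N * (2 * t) ^ d * C₀ := by gcongr
    _ = N * 2 ^ d * C₀ * t ^ d := by
      rw [mul_pow]
      ring

end H17PIT
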