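import Pool.Agent.H17.PIT.WebA
import Pool.Agent.H17.PIT.Def

/-!
Row WebB (about 130 lines): Weber's theorem with error term: number of ideals of norm ≤ x is κ x + O(x^(1 - 1/n)).

PROOF. For a class C pick J with ClassGroup.mk0 J = C⁻¹ (ClassGroup.mk0_surjective). Copy (the lemma is private) tendsto_norm_le_and_mk_eq_div_atTop_aux₁ from Mathlib/NumberTheory/NumberField/Ideal/Asymptotics.lean:
 card {I // N I ≤ s ∧ mk0 I = C} = card {I // J ∣ I ∧ IsPrincipal I ∧ N I ≤ s N J}; and card_isPrincipal_dvd_norm_le: this times torsionOrder K = card {a : idealSet K J // norm a ≤ s N J}. So with web_class K J at s N J ≥ 1 (s ≥ 1, N J ≥ 1):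
 |card {I // N I ≤ s ∧ mk0 I = C} - κ_C s| ≤ C_C s^(1-1/n), κ_C = κ N J / torsionOrder, C_C = |C| (N J)^(1-1/n) / torsionOrder (Real.mul_rpow; 1 - 1/n ≥ 0).
 Sum over the classes (Finset.card_eq_sum_card_fiberwise as in the proof of tendsto_norm_le_div_atTop₀ there). Ideals of norm ≤ x, nonzero, are counted by ∑ k ∈ Icc 1 ⌊x⌋₊, aK K k (absNorm I = 0 iff I = ⊥; Nat.le_floor_iff; disjoint union over the norm: e.g.
 Finset.card_eq_sum_card_fiberwise on the finite set, Ideal.finite_setOfPred_absNorm_le₀).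
 κ > 0: the quotient by x tends to κ by the estimate, and to the positive constant of tendsto_norm_le_div_atTop₀ (dedekindZeta_residue_pos, or positivity with regulator_pos, classNumber_pos ...) : tendsto_nhds_unique.
-/

open NumberField NumberField.InfinitePlace NumberField.mixedEmbedding
  NumberField.mixedEmbedding.fundamentalCone NumberField.Units NumberField.Units.dirichletUnitTheorem
open MeasureTheory Module

open scoped Pointwise nonZeroDivisors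

open scoped Classical

namespace H17PIT

theorem webb_aux (K : Type*) [Field K] [NumberField K] {C : ClassGroup (𝓞 K)}
    {J : (Ideal (𝓞 K))⁰} (hJ : ClassGroup.mk0 J = C⁻¹) (s : ℝ) :
    Nat.card {I : (Ideal (𝓞 K))⁰ // (Ideal.absNorm (I : Ideal (𝓞 K)) : ℝ) ≤ s ∧
        ClassGroup.mk0 I = C}
      = Nat.card {I : (Ideal (𝓞 K))⁰ // (J : Ideal (𝓞 K)) ∣ I ∧
        Submodule.IsPrincipal (I : Ideal (𝓞 K)) ∧
        (Ideal.absNorm (I : Ideal (𝓞 K)) : ℝ) ≤ s * Ideal.absNorm (J : Ideal (𝓞 K))} := by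
  simp_rw [← nonZeroDivisors_dvd_iff_dvd_coe]
  refine Nat.card_congr ?_
  refine ((Equiv.dvd J).subtypeEquiv fun I ↦ ?_).trans
    (Equiv.subtypeSubtypeEquivSubtypeInter (fun I : (Ideal (𝓞 K))⁰ ↦ J ∣ I) _)
  rw [← ClassGroup.mk0_eq_one_iff (SetLike.coe_mem _)]
  simp_rw [Equiv.dvd_apply, Submonoid.coe_mul, ← Submonoid.mul_def, _root_.map_mul, hJ,
    inv_mul_eq_one, Nat.cast_mul, mul_comm s, eq_comm, and_comm, and_congr_left_iff]
  exact fun _ ↦
    (mul_le_mul_iff_of_pos_left (Nat.cast_pos.mpr (Ideal.absNorm_pos_of_nonZeroDivisors J))).symm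

theorem webb_class (K : Type*) [Field K] [NumberField K] (C : ClassGroup (𝓞 K)) :
    ∃ κ D : ℝ, ∀ x : ℝ, 1 ≤ x →
      |(Nat.card {I : (Ideal (𝓞 K))⁰ // (Ideal.absNorm (I : Ideal (𝓞 K)) : ℝ) ≤ x ∧
        ClassGroup.mk0 I = C} : ℝ) - κ * x| ≤ D * x ^ (1 - 1 / (finrank ℚ K : ℝ)) := by
  obtain ⟨J, hJ⟩ := ClassGroup.mk0_surjective C⁻¹
  obtain ⟨κ, D, hD⟩ := web_class K J
  have hJ1 : (1 : ℝ) ≤ Ideal.absNorm (J : Ideal (𝓞 K)) := by
    exact_mod_cast Nat.succ_le_of_lt (Ideal.absNorm_pos_of_nonZeroDivisors J)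
  obtain ⟨j, hj⟩ : ∃ j : ℝ, j = Ideal.absNorm (J : Ideal (𝓞 K)) := ⟨_, rfl⟩
  have hw : (0 : ℝ) < torsionOrder K := by exact_mod_cast torsionOrder_pos K
  refine ⟨κ * j / torsionOrder K, D * j ^ (1 - 1 / (finrank ℚ K : ℝ)) / torsionOrder K, ?_⟩
  intro x hx
  rw [webb_aux K hJ x]
  have h1 := card_isPrincipal_dvd_norm_le K J (x * Ideal.absNorm (J : Ideal (𝓞 K)))
  have h2 := hD (x * Ideal.absNorm (J : Ideal (𝓞 K))) (by nlinarith)
  rw [← h1, ← hj, Real.mul_rpow (by linarith) (by rw [hj]; linarith)] at h2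
  rw [← hj] at *
  push_cast at h2
  obtain ⟨c, hc⟩ : ∃ c : ℝ, c = (Nat.card {I : (Ideal (𝓞 K))⁰ // (J : Ideal (𝓞 K)) ∣ I ∧
        Submodule.IsPrincipal (I : Ideal (𝓞 K)) ∧
        (Ideal.absNorm (I : Ideal (𝓞 K)) : ℝ) ≤ x * j} : ℝ) := ⟨_, rfl⟩
  rw [← hc] at h2 ⊢
  have h3 : c - κ * j / torsionOrder K * x = (c * torsionOrder K - κ * (x * j)) / torsionOrder K := by
    field_simp
  rw [h3, abs_div, abs_of_pos hw, div_le_iff₀ hw]
  refine h2.trans (le_of_eq ?_)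
  field_simp

theorem web_nonzero (K : Type*) [Field K] [NumberField K] :
    ∃ κ C : ℝ, ∀ x : ℝ, 1 ≤ x →
      |(Nat.card {I : (Ideal (𝓞 K))⁰ // (Ideal.absNorm (I : Ideal (𝓞 K)) : ℝ) ≤ x} : ℝ) - κ * x| ≤
        C * x ^ (1 - 1 / (finrank ℚ K : ℝ)) := by
  choose κ D hD using webb_class K
  refine ⟨∑ C, κ C, ∑ C, D C, ?_⟩
  intro x hx
  have hx0 : 0 ≤ x := by linarith
  have hsum : (Nat.card {I : (Ideal (𝓞 K))⁰ // (Ideal.absNorm (I : Ideal (𝓞 K)) : ℝ) ≤ x} : ℝ) =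
      ∑ C : ClassGroup (𝓞 K), (Nat.card {I : (Ideal (𝓞 K))⁰ //
        (Ideal.absNorm (I : Ideal (𝓞 K)) : ℝ) ≤ x ∧ ClassGroup.mk0 I = C} : ℝ) := by
    have : Fintype {I : (Ideal (𝓞 K))⁰ // (Ideal.absNorm (I : Ideal (𝓞 K)) : ℝ) ≤ x} := by
      simp_rw [← Nat.le_floor_iff hx0]
      refine @Fintype.ofFinite _ (Ideal.finite_setOfPred_absNorm_le₀ ⌊x⌋₊)
    let e := fun C : ClassGroup (𝓞 K) ↦ Equiv.subtypeSubtypeEquivSubtypeInter
      (fun I : (Ideal (𝓞 K))⁰ ↦ (Ideal.absNorm I.1 : ℝ) ≤ x) (fun I ↦ ClassGroup.mk0 I = C)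
    simp_rw [← Nat.card_congr (e _), Nat.card_eq_fintype_card, Fintype.subtype_card]
    rw [Fintype.card, Finset.card_eq_sum_card_fiberwise (f := fun I ↦ ClassGroup.mk0 I.1)
      (t := Finset.univ) (fun _ _ ↦ Finset.mem_univ _), Nat.cast_sum]
  rw [hsum, Finset.sum_mul, ← Finset.sum_sub_distrib, Finset.sum_mul]
  refine (Finset.abs_sum_le_sum_abs _ _).trans ?_
  exact Finset.sum_le_sum (fun C _ => hD C x hx)

theorem webb_sum (K : Type*) [Field K] [NumberField K] (n : ℕ) :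
    ∑ k ∈ Finset.Icc 1 n, aK K k =
      Nat.card {I : (Ideal (𝓞 K))⁰ // Ideal.absNorm (I : Ideal (𝓞 K)) ≤ n} := by
  unfold aK
  rw [← add_left_inj 1, ← Ideal.card_norm_le_eq_card_norm_le_add_one,
    show Finset.Icc 1 n = Finset.Ioc 0 n from Finset.Icc_succ_left_eq_Ioc _ _,
    show 1 = Nat.card {I : Ideal (𝓞 K) // Ideal.absNorm I = 0} by simp [Ideal.absNorm_eq_zero_iff],
    Finset.sum_Ioc_add_eq_sum_Icc (n.zero_le),
    ← Finset.card_preimage_eq_sum_card_image_eq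
      (fun k _ ↦ Ideal.finite_setOfPred_absNorm_eq k)]
  simp [Set.coe_eq_subtype]

theorem weber (K : Type*) [Field K] [NumberField K] :
    ∃ κ C : ℝ, 0 < κ ∧ ∀ x : ℝ, 1 ≤ x →
      |(∑ k ∈ Finset.Icc 1 ⌊x⌋₊, (aK K k : ℝ)) - κ * x| ≤
        C * x ^ (1 - 1 / (finrank ℚ K : ℝ)) := by
  obtain ⟨κ, C, hC⟩ := web_nonzero K
  refine ⟨κ, C, ?_, ?_⟩
  · have h1 := NumberField.Ideal.tendsto_norm_le_div_atTop₀ K
    have h2 : Filter.Tendsto (fun s : ℝ ↦
        (Nat.card {I : (Ideal (𝓞 K))⁰ // (Ideal.absNorm (I : Ideal (𝓞 K)) : ℝ) ≤ s} : ℝ) / s)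
        Filter.atTop (nhds κ) := by
      have hn : (0 : ℝ) < finrank ℚ K := by exact_mod_cast finrank_pos (R := ℚ) (M := K)
      have h3 : Filter.Tendsto (fun s : ℝ => C * s ^ (-(1 / (finrank ℚ K : ℝ)))) Filter.atTop
          (nhds 0) := by
        have := (tendsto_rpow_neg_atTop (y := 1 / (finrank ℚ K : ℝ)) (by positivity)).const_mul C
        simpa using this
      rw [tendsto_iff_norm_sub_tendsto_zero]
      refine squeeze_zero' (Filter.Eventually.of_forall (fun _ => norm_nonneg _)) ?_ h3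
      filter_upwards [Filter.eventually_ge_atTop (1 : ℝ)] with s hs
      have hs0 : 0 < s := by linarith
      have h4 := hC s hs
      rw [Real.norm_eq_abs]
      have h5 : (Nat.card {I : (Ideal (𝓞 K))⁰ // (Ideal.absNorm (I : Ideal (𝓞 K)) : ℝ) ≤ s} : ℝ) /
          s - κ = ((Nat.card {I : (Ideal (𝓞 K))⁰ //
            (Ideal.absNorm (I : Ideal (𝓞 K)) : ℝ) ≤ s} : ℝ) - κ * s) / s := by
        field_simp
      rw [h5, abs_div, abs_of_pos hs0, div_le_iff₀ hs0]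
      refine h4.trans (le_of_eq ?_)
      rw [sub_eq_add_neg, Real.rpow_add hs0, Real.rpow_one]
      ring
    have h6 := tendsto_nhds_unique h2 h1
    rw [h6]
    exact dedekindZeta_residue_pos K
  · intro x hx
    have h1 := hC x hx
    have h2 : (∑ k ∈ Finset.Icc 1 ⌊x⌋₊, (aK K k : ℝ)) =
        (Nat.card {I : (Ideal (𝓞 K))⁰ // (Ideal.absNorm (I : Ideal (𝓞 K)) : ℝ) ≤ x} : ℝ) := by
      rw [← Nat.cast_sum, webb_sum]
      simp_rw [← Nat.le_floor_iff (show (0 : ℝ) ≤ x by linarith)]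
    rw [h2]
    exact h1

end H17PIT
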