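import Pool.Agent.H17.PIT.ZI

/-!
Row ZL (about 140 lines): LamK k ≤ n Λ(k), hence the Chebyshev bound for number fields.

PROOF of lam_le. Let n = finrank ℚ K. If no ideal of norm k is a prime power, LamK K k = 0 (vMI_eq_zero). Otherwise let I = P^m, N I = k, P over the rational prime p (P ∩ ℤ = (p), absNorm P = p^f: Ideal.absNorm_eq_pow_inertiaDeg' or the like), so k = p^(f m) and vonMangoldt k = log p
 (ArithmeticFunction.vonMangoldt_apply_pow, vonMangoldt_apply_prime). Every other Q^m' of norm k has Q over the same p (norm a power of p and of q). For given Q the exponent m' is determined by N Q ^ m' = k. So LamK K k ≤ ∑_{Q over p} log N Q = ∑_Q f_Q log p ≤ n log p, since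
 ∑ e_Q f_Q = n (Ideal.sum_ramification_inertia, e_Q ≥ 1) with the finset primesOverFinset (p) (𝓞 K) of primes over p. The map Q ↦ Q^m'(Q) from the primes over p onto the prime powers of norm k: use Finset.sum_le_sum_of_injOn / Finset.sum_le_sum_fiberwise, or bound the sum over
 {I : N I = k, vMI I ≠ 0} by the injective map I ↦ its prime (injective as N Q ^ m determines m).
lam_cheb: ∑_{k ≤ N} LamK k ≤ n ψ(N) ≤ n (log 4 + 4) N (Chebyshev.psi_le_const_mul_self; Chebyshev.psi N = ∑ k ∈ Ioc 0 ⌊N⌋₊, Λ k).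
lam_summable: by comparison with n Λ: ArithmeticFunction.LSeriesSummable_vonMangoldt, LSeriesSummable.of_norm_le or LSeriesSummable_of_sum_norm_bigO with lam_cheb.
-/

open NumberField

namespace H17PIT

theorem lam_nonneg (K : Type*) [Field K] [NumberField K] (k : ℕ) : 0 ≤ LamK K k := by
  unfold LamK
  exact Finset.sum_nonneg (fun I _ => vMI_nonneg I)

theorem zl_prime {K : Type*} [Field K] [NumberField K] (P : Ideal (𝓞 K)) (hP : P.IsPrime)
    (N : ℕ) : N ≠ 0 → (N : 𝓞 K) ∈ P → ∃ p : ℕ, p.Prime ∧ (p : 𝓞 K) ∈ P := by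
  induction N using Nat.recOnMul with
  | zero =>
    intro h
    exact absurd rfl h
  | one =>
    intro _ h
    rw [Nat.cast_one] at h
    exact absurd ((Ideal.eq_top_iff_one P).mpr h) hP.ne_top
  | prime p hp =>
    intro _ h
    exact ⟨p, hp, h⟩
  | mul a b ha hb =>
    intro h0 h
    rw [Nat.cast_mul] at h
    rcases hP.mem_or_mem h with h1 | h1
    · exact ha (by rintro rfl; simp at h0) h1
    · exact hb (by rintro rfl; simp at h0) h1

theorem zl_norm (K : Type*) [Field K] [NumberField K] (p : ℕ) :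
    Ideal.absNorm (Ideal.span {(p : 𝓞 K)}) = p ^ Module.finrank ℚ K := by
  rw [Ideal.absNorm_span_singleton]
  have h1 : (p : 𝓞 K) = algebraMap ℤ (𝓞 K) (p : ℤ) := by simp
  rw [h1, Algebra.norm_algebraMap, Int.natAbs_pow, Int.natAbs_natCast, RingOfIntegers.rank]

theorem lam_le (K : Type*) [Field K] [NumberField K] (k : ℕ) (hk : k ≠ 0) :
    LamK K k ≤ Module.finrank ℚ K * ArithmeticFunction.vonMangoldt k := by
  classical
  obtain ⟨T, hT⟩ : ∃ T : Finset (Ideal (𝓞 K)),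
      T = (Ideal.finite_setOfPred_absNorm_eq (S := 𝓞 K) k).toFinset.filter
        (fun I => ∃ P : Ideal (𝓞 K), (P.IsPrime ∧ P ≠ ⊥) ∧ ∃ m : ℕ, 0 < m ∧ I = P ^ m) := ⟨_, rfl⟩
  have hTm : ∀ I ∈ T, Ideal.absNorm I = k ∧
      ∃ P : Ideal (𝓞 K), (P.IsPrime ∧ P ≠ ⊥) ∧ ∃ m : ℕ, 0 < m ∧ I = P ^ m := by
    intro I hI
    rw [hT, Finset.mem_filter, Set.Finite.mem_toFinset] at hI
    exact hI
  have hsum : LamK K k = ∑ I ∈ T, vMI I := by
    unfold LamK
    rw [hT, Finset.sum_filter]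
    apply Finset.sum_congr rfl
    intro I _
    split_ifs with h
    · rfl
    · exact vMI_eq_zero I h
  rw [hsum]
  rcases T.eq_empty_or_nonempty with hemp | ⟨I₀, hI₀⟩
  · rw [hemp, Finset.sum_empty]
    exact mul_nonneg (Nat.cast_nonneg _) ArithmeticFunction.vonMangoldt_nonneg
  obtain ⟨hI₀k, P₀, ⟨hP₀, hP₀0⟩, m₀, hm₀, hI₀P⟩ := hTm I₀ hI₀
  have hN₀ : Ideal.absNorm P₀ ≠ 0 := by
    have := zi_norm_gt P₀ hP₀ hP₀0
    omega
  obtain ⟨p, hp, hpP⟩ := zl_prime P₀ hP₀ _ hN₀ (Ideal.absNorm_mem P₀)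
  have hdvd₀ : P₀ ∣ Ideal.span {(p : 𝓞 K)} := by
    rw [Ideal.dvd_span_singleton]
    exact hpP
  have hNd : Ideal.absNorm P₀ ∣ p ^ Module.finrank ℚ K := by
    rw [← zl_norm K p]
    exact map_dvd Ideal.absNorm hdvd₀
  obtain ⟨f, _, hf⟩ := (Nat.dvd_prime_pow hp).mp hNd
  have hkp : k = p ^ (f * m₀) := by
    rw [← hI₀k, hI₀P, map_pow, hf, pow_mul]
  have hf0 : f ≠ 0 := by
    intro h0
    rw [h0, pow_zero] at hf
    have := zi_norm_gt P₀ hP₀ hP₀0
    omega
  have hfm : f * m₀ ≠ 0 := Nat.mul_ne_zero hf0 hm₀.ne'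
  have hLam : ArithmeticFunction.vonMangoldt k = Real.log p := by
    rw [hkp, ArithmeticFunction.vonMangoldt_apply_pow hfm,
      ArithmeticFunction.vonMangoldt_apply_prime hp]
  rw [hLam]
  have hch : ∀ I : Ideal (𝓞 K), ∃ P : Ideal (𝓞 K), I ∈ T →
      (P.IsPrime ∧ P ≠ ⊥) ∧ ∃ m : ℕ, 0 < m ∧ I = P ^ m := by
    intro I
    by_cases hI : I ∈ T
    · obtain ⟨_, P, hP, m, hm, hIm⟩ := hTm I hI
      exact ⟨P, fun _ => ⟨hP, m, hm, hIm⟩⟩
    · exact ⟨⊥, fun h => absurd h hI⟩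
  choose Pf hPf using hch
  have hinj : ∀ I ∈ T, ∀ J ∈ T, Pf I = Pf J → I = J := by
    intro I hI J hJ h
    obtain ⟨⟨hP, hP0⟩, m, hm, hIm⟩ := hPf I hI
    obtain ⟨_, n, hn, hJn⟩ := hPf J hJ
    rw [← h] at hJn
    have e1 := (hTm I hI).1
    have e2 := (hTm J hJ).1
    rw [hIm, map_pow] at e1
    rw [hJn, map_pow] at e2
    have e3 : Ideal.absNorm (Pf I) ^ m = Ideal.absNorm (Pf I) ^ n := by rw [e1, e2]
    have e4 := Nat.pow_right_injective (zi_norm_gt _ hP hP0) e3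
    rw [hIm, hJn, e4]
  have hpmem : ∀ I ∈ T, Pf I ∣ Ideal.span {(p : 𝓞 K)} := by
    intro I hI
    obtain ⟨⟨hP, hP0⟩, m, hm, hIm⟩ := hPf I hI
    have e1 := (hTm I hI).1
    rw [hIm, map_pow] at e1
    rw [Ideal.dvd_span_singleton]
    have e2 : ((Ideal.absNorm (Pf I) : ℕ) : 𝓞 K) ∈ Pf I := Ideal.absNorm_mem _
    have e3 : ((k : ℕ) : 𝓞 K) ∈ Pf I := by
      rw [← e1, Nat.cast_pow]
      exact Ideal.pow_mem_of_mem _ e2 m hm
    rw [hkp, Nat.cast_pow] at e3
    exact hP.mem_of_pow_mem _ e3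
  have hprod : ∏ P ∈ T.image Pf, P ∣ Ideal.span {(p : 𝓞 K)} := by
    apply Finset.prod_primes_dvd
    · intro P hP
      rw [Finset.mem_image] at hP
      obtain ⟨I, hI, rfl⟩ := hP
      obtain ⟨⟨hP, hP0⟩, _⟩ := hPf I hI
      exact Ideal.prime_of_isPrime hP0 hP
    · intro P hP
      rw [Finset.mem_image] at hP
      obtain ⟨I, hI, rfl⟩ := hP
      exact hpmem I hI
  have hnd : ∏ I ∈ T, Ideal.absNorm (Pf I) ∣ p ^ Module.finrank ℚ K := by
    have h1 := map_dvd Ideal.absNorm hprod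
    rw [map_prod, Finset.prod_image (fun I hI J hJ h => hinj I hI J hJ h), zl_norm] at h1
    exact h1
  have hle : ∏ I ∈ T, Ideal.absNorm (Pf I) ≤ p ^ Module.finrank ℚ K :=
    Nat.le_of_dvd (Nat.pow_pos hp.pos) hnd
  have hsum2 : ∑ I ∈ T, vMI I = Real.log ((∏ I ∈ T, Ideal.absNorm (Pf I) : ℕ) : ℝ) := by
    rw [Nat.cast_prod, Real.log_prod]
    · apply Finset.sum_congr rfl
      intro I hI
      obtain ⟨⟨hP, hP0⟩, m, hm, hIm⟩ := hPf I hI
      conv_lhs => rw [hIm]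
      exact vMI_pow _ hP hP0 m hm
    · intro I hI
      obtain ⟨⟨hP, hP0⟩, _⟩ := hPf I hI
      have := zi_norm_gt _ hP hP0
      have h2 : Ideal.absNorm (Pf I) ≠ 0 := by omega
      exact_mod_cast h2
  rw [hsum2, ← Real.log_pow]
  apply Real.log_le_log
  · have : 0 < ∏ I ∈ T, Ideal.absNorm (Pf I) := by
      apply Finset.prod_pos
      intro I hI
      obtain ⟨⟨hP, hP0⟩, _⟩ := hPf I hI
      have := zi_norm_gt _ hP hP0
      omega
    exact_mod_cast this
  · exact_mod_cast hle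

theorem lam_cheb (K : Type*) [Field K] [NumberField K] :
    ∃ C : ℝ, ∀ n : ℕ, ∑ k ∈ Finset.Icc 1 n, LamK K k ≤ C * n := by
  refine ⟨Module.finrank ℚ K * (Real.log 4 + 4), fun n => ?_⟩
  have h1 : ∑ k ∈ Finset.Icc 1 n, LamK K k ≤
      ∑ k ∈ Finset.Icc 1 n, (Module.finrank ℚ K : ℝ) * ArithmeticFunction.vonMangoldt k := by
    apply Finset.sum_le_sum
    intro k hk
    have := (Finset.mem_Icc.mp hk).1
    exact lam_le K k (by omega)
  rw [← Finset.mul_sum] at h1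
  have h2 : ∑ k ∈ Finset.Icc 1 n, ArithmeticFunction.vonMangoldt k = Chebyshev.psi n := by
    unfold Chebyshev.psi
    rw [Nat.floor_natCast]
    have : Finset.Icc 1 n = Finset.Ioc 0 n := by
      ext
      simp [Nat.succ_le_iff]
    rw [this]
  rw [h2] at h1
  refine h1.trans ?_
  rw [mul_assoc]
  exact mul_le_mul_of_nonneg_left (Chebyshev.psi_le_const_mul_self (Nat.cast_nonneg n))
    (Nat.cast_nonneg _)

theorem lam_summable (K : Type*) [Field K] [NumberField K] (s : ℂ) (hs : 1 < s.re) :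
    LSeriesSummable (fun k => (LamK K k : ℂ)) s := by
  obtain ⟨C, hC⟩ := lam_cheb K
  refine LSeriesSummable_of_sum_norm_bigO_and_nonneg (r := 1) ?_ (lam_nonneg K) zero_le_one hs
  refine Asymptotics.IsBigO.of_bound C (Filter.Eventually.of_forall (fun n => ?_))
  rw [Real.rpow_one, Real.norm_eq_abs, Real.norm_eq_abs,
    abs_of_nonneg (Finset.sum_nonneg (fun k _ => lam_nonneg K k)),
    abs_of_nonneg (Nat.cast_nonneg n)]
  exact hC n

end H17PIT
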