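import Pool.Agent.H17.PIT.ZV
import Pool.Agent.H17.PIT.ZL
import Pool.Agent.H17.PNT
import Pool.Agent.H17.PIT.WebB

/-!
Row ZT (about 180 lines): from psi to the number of prime ideals.

PROOF. Let P(x) = {p prime, ≠ ⊥, N p ≤ x} (finite: Ideal.finite_setOfPred_absNorm_le), θ(x) = ∑_{p ∈ P(x)} log N p, ψ(x) = ∑ k ∈ Icc 1 ⌊x⌋₊, LamK K k = ∑_{I : 1 ≤ N I ≤ x} vMI I (finset fibres over the norm).
 (a) piK K y ≤ C₀ y for y ≥ 1: the primes are among the ideals, number = ∑_{k ≤ y} aK K k ≤ κ y + C y (weber).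
 (b) θ(x) ≤ ψ(x) (vMI p = log N p, vMI_pow with m = 1; other terms ≥ 0) and ψ(x) - θ(x) ≤ ∑_{m ≥ 2} ∑_{p : N p^m ≤ x} log N p ≤ ∑_{p : N p ≤ √x} (log x / log N p) log N p ≤ piK K (√x) log x ≤ C₀ √x log x: the map (p, m) ↦ p^m (N p ≥ 2) covers the prime powers with m ≥ 2,
     2 ≤ m ≤ log x / log N p, N p ≤ √x. So θ(x)/x → 1.
 (c) piK K x * log x ≥ θ(x), and with y = x / (log x)^2: θ(x) ≥ (piK K x - piK K y) log y, so piK K x log x / x ≤ (log x/log y) θ(x)/x + C₀ (y/x) log x; log x/log y → 1 and (y / x) log x = 1/log x → 0. Hence the limit 1.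
 (The same steps for ℤ are in Pool/Agent/H17/PNT.lean: thetaAP, piAP; copy the pattern. Real.isLittleO_log..., log y = log x - 2 log log x.)
pit_nat: compose with the cast ℕ → ℝ (tendsto_natCast_atTop_atTop); piK K (X : ℝ) is the ncard with Nat.cast_le.
-/

open NumberField Filter Topology

namespace H17PIT

theorem zt_finite (K : Type*) [Field K] [NumberField K] (x : ℝ) :
    {p : Ideal (𝓞 K) | p.IsPrime ∧ p ≠ ⊥ ∧ (Ideal.absNorm p : ℝ) ≤ x}.Finite := by
  refine (Ideal.finite_setOfPred_absNorm_le (S := 𝓞 K) ⌊x⌋₊).subset ?_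
  rintro p ⟨_, _, hp⟩
  exact Nat.le_floor hp

/-- finset of prime ideals of norm at most `x` -/
noncomputable def ztP (K : Type*) [Field K] [NumberField K] (x : ℝ) : Finset (Ideal (𝓞 K)) :=
  (zt_finite K x).toFinset

theorem ztP_mem (K : Type*) [Field K] [NumberField K] (x : ℝ) (p : Ideal (𝓞 K)) :
    p ∈ ztP K x ↔ p.IsPrime ∧ p ≠ ⊥ ∧ (Ideal.absNorm p : ℝ) ≤ x := by
  unfold ztP
  rw [Set.Finite.mem_toFinset]
  rfl

theorem piK_eq (K : Type*) [Field K] [NumberField K] (x : ℝ) : piK K x = (ztP K x).card := by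
  unfold piK ztP
  exact Set.ncard_eq_toFinset_card _ (zt_finite K x)

theorem pi_le (K : Type*) [Field K] [NumberField K] :
    ∃ C : ℝ, ∀ y : ℝ, 1 ≤ y → (piK K y : ℝ) ≤ C * y := by
  classical
  obtain ⟨κ, C, hκ, hW⟩ := weber K
  refine ⟨κ + |C|, fun y hy => ?_⟩
  have hy0 : 0 < y := by linarith
  have h1 : ztP K y ⊆ (Finset.Icc 1 ⌊y⌋₊).biUnion (zvS K) := by
    intro p hp
    obtain ⟨hp1, hp2, hp3⟩ := (ztP_mem K y p).mp hp
    rw [Finset.mem_biUnion]
    refine ⟨Ideal.absNorm p, ?_, (zv_mem K _ p).mpr rfl⟩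
    rw [Finset.mem_Icc]
    have := zi_norm_gt p hp1 hp2
    exact ⟨by omega, Nat.le_floor hp3⟩
  have h2 : (piK K y : ℝ) ≤ ∑ k ∈ Finset.Icc 1 ⌊y⌋₊, (aK K k : ℝ) := by
    rw [piK_eq]
    have h3 := (Finset.card_le_card h1).trans Finset.card_biUnion_le
    have h4 : ∑ k ∈ Finset.Icc 1 ⌊y⌋₊, (zvS K k).card = ∑ k ∈ Finset.Icc 1 ⌊y⌋₊, aK K k :=
      Finset.sum_congr rfl (fun k _ => (zv_card K k).symm)
    rw [h4] at h3
    exact_mod_cast h3
  have h5 := (abs_le.mp (hW y hy)).2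
  have hn : (0 : ℝ) < Module.finrank ℚ K := by
    exact_mod_cast Module.finrank_pos (R := ℚ) (M := K)
  have h6 : y ^ (1 - 1 / (Module.finrank ℚ K : ℝ)) ≤ y := by
    calc y ^ (1 - 1 / (Module.finrank ℚ K : ℝ)) ≤ y ^ (1 : ℝ) := by
          apply Real.rpow_le_rpow_of_exponent_le hy
          have : 0 < 1 / (Module.finrank ℚ K : ℝ) := by positivity
          linarith
      _ = y := Real.rpow_one y
  have h7 : C * y ^ (1 - 1 / (Module.finrank ℚ K : ℝ)) ≤ |C| * y :=
    mul_le_mul (le_abs_self C) h6 (Real.rpow_nonneg hy0.le _) (abs_nonneg C)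
  nlinarith

/-- Chebyshev theta function of `K` -/
noncomputable def ztTheta (K : Type*) [Field K] [NumberField K] (x : ℝ) : ℝ :=
  ∑ p ∈ ztP K x, Real.log (Ideal.absNorm p)

open Classical in
theorem ztTheta_eq (K : Type*) [Field K] [NumberField K] (x : ℝ) :
    ztTheta K x = ∑ k ∈ Finset.Icc 1 ⌊x⌋₊,
      ∑ I ∈ (zvS K k).filter (fun I => I.IsPrime ∧ I ≠ ⊥), Real.log (Ideal.absNorm I) := by
  unfold ztTheta
  rw [← Finset.sum_biUnion]
  · apply Finset.sum_congr _ (fun _ _ => rfl)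
    ext p
    rw [ztP_mem, Finset.mem_biUnion]
    constructor
    · rintro ⟨hp1, hp2, hp3⟩
      refine ⟨Ideal.absNorm p, ?_, ?_⟩
      · rw [Finset.mem_Icc]
        have := zi_norm_gt p hp1 hp2
        exact ⟨by omega, Nat.le_floor hp3⟩
      · rw [Finset.mem_filter, zv_mem]
        exact ⟨rfl, hp1, hp2⟩
    · rintro ⟨k, hk, hp⟩
      rw [Finset.mem_filter, zv_mem] at hp
      obtain ⟨h1, h2, h3⟩ := hp
      rw [Finset.mem_Icc] at hk
      refine ⟨h2, h3, ?_⟩
      rw [h1]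
      have hf : 0 < ⌊x⌋₊ := by omega
      have hx0 : 0 ≤ x := by
        by_contra hneg
        rw [Nat.floor_of_nonpos (not_le.mp hneg).le] at hf
        exact lt_irrefl _ hf
      exact (by exact_mod_cast hk.2 : (k : ℝ) ≤ ⌊x⌋₊).trans (Nat.floor_le hx0)
  · intro k _ l _ hkl
    rw [Function.onFun, Finset.disjoint_left]
    intro p hp1 hp2
    rw [Finset.mem_filter, zv_mem] at hp1 hp2
    exact hkl (hp1.1.symm.trans hp2.1)

theorem zt_diff (K : Type*) [Field K] [NumberField K] (x : ℝ) :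
    0 ≤ (∑ k ∈ Finset.Icc 1 ⌊x⌋₊, LamK K k) - ztTheta K x ∧
    (∑ k ∈ Finset.Icc 1 ⌊x⌋₊, LamK K k) - ztTheta K x ≤
      Module.finrank ℚ K * (Chebyshev.psi x - Chebyshev.theta x) := by
  classical
  rw [ztTheta_eq, ← Finset.sum_sub_distrib]
  have hterm : ∀ k ∈ Finset.Icc 1 ⌊x⌋₊,
      0 ≤ LamK K k - ∑ I ∈ (zvS K k).filter (fun I => I.IsPrime ∧ I ≠ ⊥),
        Real.log (Ideal.absNorm I) ∧
      LamK K k - ∑ I ∈ (zvS K k).filter (fun I => I.IsPrime ∧ I ≠ ⊥),
        Real.log (Ideal.absNorm I) ≤ (Module.finrank ℚ K : ℝ) *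
          (ArithmeticFunction.vonMangoldt k - if k.Prime then Real.log k else 0) := by
    intro k hk
    have hk1 := (Finset.mem_Icc.mp hk).1
    have h1 : ∑ I ∈ (zvS K k).filter (fun I => I.IsPrime ∧ I ≠ ⊥), Real.log (Ideal.absNorm I) =
        ∑ I ∈ (zvS K k).filter (fun I => I.IsPrime ∧ I ≠ ⊥), vMI I := by
      apply Finset.sum_congr rfl
      intro I hI
      rw [Finset.mem_filter] at hI
      have := vMI_pow I hI.2.1 hI.2.2 1 one_pos
      rw [pow_one] at this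
      exact this.symm
    have h2 : LamK K k = ∑ I ∈ zvS K k, vMI I := rfl
    rw [h1]
    have h3 : ∑ I ∈ (zvS K k).filter (fun I => I.IsPrime ∧ I ≠ ⊥), vMI I ≤ LamK K k := by
      rw [h2]
      apply Finset.sum_le_sum_of_subset_of_nonneg (Finset.filter_subset _ _)
      intro I _ _
      exact vMI_nonneg I
    refine ⟨by linarith, ?_⟩
    by_cases hkp : k.Prime
    · have h4 : (zvS K k).filter (fun I => I.IsPrime ∧ I ≠ ⊥) = zvS K k := by
        rw [Finset.filter_eq_self]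
        intro I hI
        rw [zv_mem] at hI
        refine ⟨Ideal.isPrime_of_irreducible_absNorm (by rw [hI]; exact hkp), ?_⟩
        intro h0
        rw [h0, Ideal.absNorm_bot] at hI
        omega
      rw [h4, h2, sub_self, if_pos hkp, ArithmeticFunction.vonMangoldt_apply_prime hkp, sub_self,
        mul_zero]
    · rw [if_neg hkp, sub_zero]
      have h5 := lam_le K k (by omega)
      have h6 : 0 ≤ ∑ I ∈ (zvS K k).filter (fun I => I.IsPrime ∧ I ≠ ⊥), vMI I :=
        Finset.sum_nonneg (fun I _ => vMI_nonneg I)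
      linarith
  refine ⟨Finset.sum_nonneg (fun k hk => (hterm k hk).1), ?_⟩
  refine (Finset.sum_le_sum (fun k hk => (hterm k hk).2)).trans (le_of_eq ?_)
  rw [← Finset.mul_sum, Finset.sum_sub_distrib]
  congr 1
  unfold Chebyshev.psi Chebyshev.theta
  have h7 : Finset.Icc 1 ⌊x⌋₊ = Finset.Ioc 0 ⌊x⌋₊ := by
    ext
    simp [Nat.succ_le_iff]
  rw [Finset.sum_filter, h7]

theorem zt_theta_tendsto (K : Type*) [Field K] [NumberField K]
    (h : Tendsto (fun x : ℝ => (∑ k ∈ Finset.Icc 1 ⌊x⌋₊, LamK K k) / x) atTop (𝓝 1)) :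
    Tendsto (fun x : ℝ => ztTheta K x / x) atTop (𝓝 1) := by
  have h2 : Tendsto (fun x : ℝ => (∑ k ∈ Finset.Icc 1 ⌊x⌋₊, LamK K k) / x - ztTheta K x / x)
      atTop (𝓝 0) := by
    have h3 := (Pool.Agent.H17.tendsto_sqrt_mul_log_div).const_mul (Module.finrank ℚ K : ℝ)
    rw [mul_zero] at h3
    apply tendsto_of_tendsto_of_tendsto_of_le_of_le' tendsto_const_nhds h3
    · filter_upwards [eventually_gt_atTop 0] with x hx
      rw [← sub_div]
      exact div_nonneg (zt_diff K x).1 hx.le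
    · filter_upwards [eventually_ge_atTop 1] with x hx
      rw [← sub_div, ← mul_div_assoc]
      have h1 := (zt_diff K x).2
      have h2 := Chebyshev.psi_sub_theta_le hx
      have hx0 : 0 < x := by linarith
      apply div_le_div_of_nonneg_right _ hx0.le
      refine h1.trans ?_
      exact mul_le_mul_of_nonneg_left h2 (Nat.cast_nonneg _)
  have h3 := h.sub h2
  rw [sub_zero] at h3
  refine h3.congr (fun x => ?_)
  ring

theorem zt_lower (K : Type*) [Field K] [NumberField K] {x : ℝ} (_hx : 1 ≤ x) :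
    ztTheta K x ≤ piK K x * Real.log x := by
  unfold ztTheta
  rw [piK_eq, ← nsmul_eq_mul]
  apply Finset.sum_le_card_nsmul
  intro p hp
  obtain ⟨hp1, hp2, hp3⟩ := (ztP_mem K x p).mp hp
  have := zi_norm_gt p hp1 hp2
  exact Real.log_le_log (by exact_mod_cast (by omega : 0 < Ideal.absNorm p)) hp3

theorem zt_upper (K : Type*) [Field K] [NumberField K] {x δ : ℝ} (hx : 1 < x) (hδ0 : 0 < δ)
    (hδ : δ < 1) :
    (piK K x : ℝ) ≤ piK K (x ^ (1 - δ)) + ztTheta K x / ((1 - δ) * Real.log x) := by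
  classical
  have hlog : 0 < Real.log x := Real.log_pos hx
  have hd : 0 < 1 - δ := by linarith
  have hx0 : 0 < x := by linarith
  obtain ⟨S, hS⟩ : ∃ S, S = ztP K x := ⟨_, rfl⟩
  have h1 : (piK K x : ℝ) = ∑ p ∈ S, (1 : ℝ) := by
    rw [piK_eq, hS]
    simp
  have h2 : ∑ p ∈ S, (1 : ℝ) =
      ∑ p ∈ S.filter (fun p : Ideal (𝓞 K) => (Ideal.absNorm p : ℝ) ≤ x ^ (1 - δ)), (1 : ℝ)
      + ∑ p ∈ S.filter (fun p : Ideal (𝓞 K) => ¬ (Ideal.absNorm p : ℝ) ≤ x ^ (1 - δ)), (1 : ℝ) :=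
    (Finset.sum_filter_add_sum_filter_not S _ _).symm
  have h3 : ∑ p ∈ S.filter (fun p : Ideal (𝓞 K) => (Ideal.absNorm p : ℝ) ≤ x ^ (1 - δ)), (1 : ℝ) ≤
      piK K (x ^ (1 - δ)) := by
    have hsub : S.filter (fun p : Ideal (𝓞 K) => (Ideal.absNorm p : ℝ) ≤ x ^ (1 - δ)) ⊆
        ztP K (x ^ (1 - δ)) := by
      intro p hp
      rw [Finset.mem_filter, hS, ztP_mem] at hp
      rw [ztP_mem]
      exact ⟨hp.1.1, hp.1.2.1, hp.2⟩
    rw [piK_eq]
    calc ∑ p ∈ S.filter (fun p : Ideal (𝓞 K) => (Ideal.absNorm p : ℝ) ≤ x ^ (1 - δ)), (1 : ℝ)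
        = ((S.filter (fun p : Ideal (𝓞 K) => (Ideal.absNorm p : ℝ) ≤ x ^ (1 - δ))).card : ℝ) := by
          simp
      _ ≤ ((ztP K (x ^ (1 - δ))).card : ℝ) := by exact_mod_cast Finset.card_le_card hsub
  have h4 : ∑ p ∈ S.filter (fun p : Ideal (𝓞 K) => ¬ (Ideal.absNorm p : ℝ) ≤ x ^ (1 - δ)), (1 : ℝ)
      ≤ ztTheta K x / ((1 - δ) * Real.log x) := by
    rw [le_div_iff₀ (by positivity), Finset.sum_mul]
    unfold ztTheta
    rw [← hS]
    calc ∑ p ∈ S.filter (fun p : Ideal (𝓞 K) => ¬ (Ideal.absNorm p : ℝ) ≤ x ^ (1 - δ)),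
          (1 : ℝ) * ((1 - δ) * Real.log x)
        ≤ ∑ p ∈ S.filter (fun p : Ideal (𝓞 K) => ¬ (Ideal.absNorm p : ℝ) ≤ x ^ (1 - δ)),
          Real.log (Ideal.absNorm p) := by
          apply Finset.sum_le_sum
          intro p hp
          rw [Finset.mem_filter, not_le] at hp
          rw [one_mul, ← Real.log_rpow hx0]
          exact Real.log_le_log (Real.rpow_pos_of_pos hx0 _) hp.2.le
      _ ≤ ∑ p ∈ S, Real.log (Ideal.absNorm p) := by
          apply Finset.sum_le_sum_of_subset_of_nonneg (Finset.filter_subset _ _)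
          intro p hp _
          apply Real.log_natCast_nonneg
  rw [h1, h2]
  linarith

theorem pi_of_psi (K : Type*) [Field K] [NumberField K]
    (h : Tendsto (fun x : ℝ => (∑ k ∈ Finset.Icc 1 ⌊x⌋₊, LamK K k) / x) atTop (𝓝 1)) :
    Tendsto (fun x : ℝ => (piK K x : ℝ) * Real.log x / x) atTop (𝓝 1) := by
  have h := zt_theta_tendsto K h
  obtain ⟨C₀, hC₀⟩ := pi_le K
  obtain ⟨C, hC⟩ : ∃ C, C = |C₀| + 1 := ⟨_, rfl⟩
  have hCpos : 0 < C := by
    rw [hC]
    positivity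
  have hCb : ∀ y : ℝ, 1 ≤ y → (piK K y : ℝ) ≤ C * y := by
    intro y hy
    refine (hC₀ y hy).trans ?_
    apply mul_le_mul_of_nonneg_right _ (by linarith)
    rw [hC]
    linarith [le_abs_self C₀]
  rw [tendsto_order]
  constructor
  · intro b hb
    filter_upwards [h.eventually_const_lt hb, eventually_ge_atTop 1] with x hx1 hx2
    refine lt_of_lt_of_le hx1 ?_
    exact div_le_div_of_nonneg_right (zt_lower K hx2) (by linarith)
  · intro b hb
    have hcont : Tendsto (fun δ : ℝ => (1 + δ) / (1 - δ) + C * δ) (𝓝[>] 0) (𝓝 1) := by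
      have : Tendsto (fun δ : ℝ => (1 + δ) / (1 - δ) + C * δ) (𝓝 0)
          (𝓝 ((1 + 0) / (1 - 0) + C * 0)) := by
        apply ContinuousAt.tendsto
        apply ContinuousAt.add _ (by fun_prop)
        apply ContinuousAt.div
        · fun_prop
        · fun_prop
        · norm_num
      simp only [sub_zero, add_zero, div_one, mul_zero] at this
      exact this.mono_left nhdsWithin_le_nhds
    have hlt1 : ∀ᶠ η : ℝ in 𝓝[>] 0, η < 1 := by
      have : ∀ᶠ η : ℝ in 𝓝 0, η < 1 := eventually_lt_nhds (by norm_num)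
      exact this.filter_mono nhdsWithin_le_nhds
    obtain ⟨δ, ⟨hδ1, hδ3⟩, hδ2⟩ :=
      (((hcont.eventually_lt_const hb).and hlt1).and self_mem_nhdsWithin).exists
    have hδ : 0 < δ := hδ2
    have h1d : 0 < 1 - δ := by linarith
    have hsmall : Tendsto (fun x : ℝ => Real.log x / x ^ δ) atTop (𝓝 0) :=
      (isLittleO_log_rpow_atTop hδ).tendsto_div_nhds_zero
    filter_upwards [h.eventually_lt_const (show (1 : ℝ) < 1 + δ by linarith),
      hsmall.eventually_lt_const hδ, eventually_gt_atTop 1] with x hx1 hx2 hx3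
    have hlog : 0 < Real.log x := Real.log_pos hx3
    have hx0 : 0 < x := by linarith
    have h5 := zt_upper K hx3 hδ hδ3
    have h6 := hCb (x ^ (1 - δ)) (Real.one_le_rpow hx3.le h1d.le)
    have h7 : (piK K x : ℝ) ≤ C * x ^ (1 - δ) + ztTheta K x / ((1 - δ) * Real.log x) := by
      linarith
    calc (piK K x : ℝ) * Real.log x / x
        ≤ (C * x ^ (1 - δ) + ztTheta K x / ((1 - δ) * Real.log x)) * Real.log x / x := by gcongr
      _ = C * (Real.log x / x ^ δ) + (ztTheta K x / x) / (1 - δ) := by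
          have e1 : x ^ (1 - δ) = x / x ^ δ := by rw [Real.rpow_sub hx0, Real.rpow_one]
          rw [e1]
          have : 0 < x ^ δ := by positivity
          field_simp
      _ ≤ C * δ + (1 + δ) / (1 - δ) := by
          gcongr
      _ < b := by linarith

end H17PIT
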