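import Pool.Agent.H17.PIT.ZP
import Pool.Agent.H17.PIT.ZT

/-! Prime ideal theorem for every number field. -/

open NumberField Filter Topology

namespace H17PIT

/-- prime ideal theorem: the number of nonzero prime ideals of norm at most `x` is asymptotic to `x / log x` -/
theorem pit (K : Type*) [Field K] [NumberField K] :
    Tendsto (fun x : ℝ => (piK K x : ℝ) * Real.log x / x) atTop (𝓝 1) :=
  pi_of_psi K (psi_pit K)

/-- prime ideal theorem along the natural numbers -/
theorem pit_nat (K : Type*) [Field K] [NumberField K] :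
    Tendsto (fun X : ℕ => ((Set.ncard {p : Ideal (𝓞 K) | p.IsPrime ∧ p ≠ ⊥ ∧
      Ideal.absNorm p ≤ X} : ℕ) : ℝ) * Real.log X / X) atTop (𝓝 1) := by
  have h := (pit K).comp tendsto_natCast_atTop_atTop
  refine h.congr (fun X => ?_)
  simp only [Function.comp, piK, Nat.cast_le]

end H17PIT
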