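import Pool.Agent.H17.PIT.Lat
import Pool.Agent.H17.PIT.Cell
import Pool.Agent.H17.PIT.FrB

/-!
Row WebA (about 130 lines): number of elements of an ideal in the fundamental cone of bounded norm, with error term.

count_err: from cell_err (constant R) and bad_le with A = frontier D, d = finrank - 1, that R.

cone_scale: for s > 0 and n = finrank ℚ K, s^(1/n) • normLeOne K = {x ∈ fundamentalCone K | norm x ≤ s}: smul_mem_iff_mem (c ≠ 0) for the cone, mixedEmbedding.norm_smul: norm (c • x) = |c| ^ n norm x, (s^(1/n))^n = s (Real.rpow_natCast_mul / Real.rpow_inv_natCast_pow).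

web_class: E = mixedSpace K with volume (IsAddHaarMeasure is an instance), Λ = idealLattice K (FractionalIdeal.mk0 K J) (mixedEmbedding.idealLattice, DiscreteTopology and IsZLattice instances exist), D = normLeOne K (measurableSet_normLeOne, isBounded_normLeOne, box_frontier),
 t = s^(1/n) ≥ 1, t^n = s, t^(n-1) = s^(1 - 1/n) (Real.rpow_natCast, Real.rpow_mul, Nat.cast_pred: n ≥ 1). finrank ℝ (mixedSpace K) = n: mixedEmbedding.finrank. Bijection of {v // v ∈ Λ ∧ v ∈ t • D} with {a : idealSet K J // norm a ≤ s}: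
 see the private definition tendsto_norm_le_and_mk_eq_div_atTop_aux₂ in Mathlib/NumberTheory/NumberField/Ideal/Asymptotics.lean (mem_idealSet, mem_idealLattice, FractionalIdeal.coe_mk0).
-/

open NumberField NumberField.InfinitePlace NumberField.mixedEmbedding
  NumberField.mixedEmbedding.fundamentalCone NumberField.Units NumberField.Units.dirichletUnitTheorem
open MeasureTheory Module

open scoped Pointwise nonZeroDivisors

open scoped Classical

namespace H17PIT

theorem count_err {E : Type*} [NormedAddCommGroup E] [NormedSpace ℝ E] [FiniteDimensional ℝ E]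
    [MeasurableSpace E] [BorelSpace E] (μ : Measure E) [μ.IsAddHaarMeasure]
    (Λ : Submodule ℤ E) [DiscreteTopology Λ] [IsZLattice ℝ Λ] (D : Set E)
    (hD : MeasurableSet D) (hb : Bornology.IsBounded D) (d : ℕ) (hbox : BoxCov (frontier D) d) :
    ∃ C : ℝ, ∀ t : ℝ, 1 ≤ t →
      |(Nat.card {v : E // v ∈ Λ ∧ v ∈ t • D} : ℝ) -
        μ.real D / ZLattice.covolume Λ μ * t ^ finrank ℝ E| ≤ C * t ^ d := by
  obtain ⟨R, hR⟩ := cell_err μ Λ D hD hb
  obtain ⟨C, hC⟩ := bad_le Λ (frontier D) d hbox R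
  refine ⟨C, fun t ht => ?_⟩
  obtain ⟨h1, h2⟩ := hC t ht
  exact (hR t (by linarith) h1).trans h2

theorem weba_pow (K : Type*) [Field K] [NumberField K] (s : ℝ) (hs : 0 < s) :
    (s ^ (1 / (finrank ℚ K : ℝ))) ^ finrank ℚ K = s := by
  have hn : (finrank ℚ K : ℝ) ≠ 0 := by
    exact_mod_cast (finrank_pos (R := ℚ) (M := K)).ne'
  rw [← Real.rpow_natCast, ← Real.rpow_mul hs.le, one_div, inv_mul_cancel₀ hn, Real.rpow_one]

theorem cone_scale (K : Type*) [Field K] [NumberField K] (s : ℝ) (hs : 0 < s) :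
    (s ^ (1 / (finrank ℚ K : ℝ))) • normLeOne K =
      {x | x ∈ fundamentalCone K ∧ mixedEmbedding.norm x ≤ s} := by
  have ht : 0 < s ^ (1 / (finrank ℚ K : ℝ)) := Real.rpow_pos_of_pos hs _
  obtain ⟨t, htd⟩ : ∃ t, t = s ^ (1 / (finrank ℚ K : ℝ)) := ⟨_, rfl⟩
  have htn : t ^ finrank ℚ K = s := by
    rw [htd]
    exact weba_pow K s hs
  rw [← htd] at ht ⊢
  ext x
  rw [Set.mem_smul_set_iff_inv_smul_mem₀ ht.ne', mem_normLeOne, smul_mem_iff_mem (inv_ne_zero ht.ne'),
    mixedEmbedding.norm_smul, abs_of_pos (inv_pos.mpr ht), inv_pow, htn]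
  simp only [Set.mem_ofPred_eq]
  rw [inv_mul_le_iff₀ hs, mul_one]

theorem web_class (K : Type*) [Field K] [NumberField K] (J : (Ideal (𝓞 K))⁰) :
    ∃ κ C : ℝ, ∀ s : ℝ, 1 ≤ s →
      |(Nat.card {a : idealSet K J // mixedEmbedding.norm (a : mixedSpace K) ≤ s} : ℝ) - κ * s| ≤
        C * s ^ (1 - 1 / (finrank ℚ K : ℝ)) := by
  obtain ⟨C, hC⟩ := count_err (volume : Measure (mixedSpace K))
    (mixedEmbedding.idealLattice K (FractionalIdeal.mk0 K J)) (normLeOne K)
    (measurableSet_normLeOne K) (isBounded_normLeOne K) (finrank ℚ K - 1) (box_frontier K)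
  refine ⟨(volume : Measure (mixedSpace K)).real (normLeOne K) /
    ZLattice.covolume (mixedEmbedding.idealLattice K (FractionalIdeal.mk0 K J))
      (volume : Measure (mixedSpace K)), C, fun s hs => ?_⟩
  have hs0 : 0 < s := by linarith
  have hn : 0 < finrank ℚ K := finrank_pos
  have hnr : (finrank ℚ K : ℝ) ≠ 0 := by exact_mod_cast hn.ne'
  have ht1 : 1 ≤ s ^ (1 / (finrank ℚ K : ℝ)) := Real.one_le_rpow hs (by positivity)
  have h1 := hC _ ht1
  rw [mixedEmbedding.finrank, weba_pow K s hs0] at h1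
  have h2 : (s ^ (1 / (finrank ℚ K : ℝ))) ^ (finrank ℚ K - 1) =
      s ^ (1 - 1 / (finrank ℚ K : ℝ)) := by
    rw [← Real.rpow_natCast, ← Real.rpow_mul hs0.le, Nat.cast_sub hn]
    congr 1
    push_cast
    field_simp
  rw [h2] at h1
  have h3 : Nat.card {a : idealSet K J // mixedEmbedding.norm (a : mixedSpace K) ≤ s} =
      Nat.card {v : mixedSpace K // v ∈ mixedEmbedding.idealLattice K (FractionalIdeal.mk0 K J) ∧
        v ∈ (s ^ (1 / (finrank ℚ K : ℝ))) • normLeOne K} := by
    rw [cone_scale K s hs0]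
    refine Nat.card_congr ?_
    refine (Equiv.subtypeSubtypeEquivSubtypeInter (fun a => a ∈ idealSet K J)
      (fun a => mixedEmbedding.norm a ≤ s)).trans (Equiv.subtypeEquivProp ?_)
    funext x
    apply propext
    constructor
    · rintro ⟨⟨h4, h5⟩, h6⟩
      exact ⟨h5, h4, h6⟩
    · rintro ⟨h5, h4, h6⟩
      exact ⟨⟨h4, h5⟩, h6⟩
  rw [h3]
  exact h1

end H17PIT
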