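import Mathlib

/-!
Row ZC (about 120 lines, Mathlib only): continuation of (s - 1) Z(s) to Re s > 1 - δ from the partial sums κ x + O(x^(1-δ)).

PROOF. Let A(x) = ∑ k ∈ Icc 1 ⌊x⌋₊, a k and E(x) = A(x) - κ x for x ≥ 1, |E(x)| ≤ C x^(1-δ). A(n) = O(n) (n^(1-δ) ≤ n), so LSeriesSummable for Re s > 1: LSeriesSummable_of_sum_norm_bigO (r = 1).
 LSeries_eq_mul_integral_of_nonneg (r = 1): Z(s) = s ∫_{t>1} A(t) t^(-(s+1)) for Re s > 1. Split A(t) = κ t + E(t): ∫_{t>1} t^(-s) dt = 1/(s-1) (integral_Ioi_cpow_of_lt), both pieces are integrable (integrableOn_Ioi_cpow_of_lt; the second as the difference or by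
 domination |E(t) t^(-(s+1))| ≤ C t^(-δ - Re s)... measurable: A is measurable (step function of ⌊t⌋₊: Measurable from ℕ composed with Nat.measurable_floor)).
 M(s) := mellin (fun t : ℝ ↦ if 1 < t then ((E t : ℝ) : ℂ) else 0) (-s) = ∫_{t>0} t^(-s-1) • f t = ∫_{t>1} E(t) t^(-(s+1)). g(s) := κ s + (s - 1) * s * M(s). For Re s > 1: (s-1) Z(s) = (s-1) s (κ/(s-1) + M(s)) = g(s). g 1 = κ.
 Differentiable for Re s > 1 - δ: mellin_differentiableAt_of_isBigO_rpow with a = δ - 1 (f = O(t^(1-δ)) at infinity; Re(-s) < δ - 1) and b = Re(-s) - 1 (f = 0 near 0 so O of anything), local integrability on Ioi 0: bounded measurable on compacts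
 (or: f = A·1_{t>1} - κ t·1_{t>1}, use LocallyIntegrable of monotone / continuousOn pieces). Compose with s ↦ -s.
-/

open Filter Topology MeasureTheory Set

namespace H17PIT

/-- the error function -/
noncomputable def zcE (a : ℕ → ℝ) (κ : ℝ) (t : ℝ) : ℝ :=
  (∑ k ∈ Finset.Icc 1 ⌊t⌋₊, a k) - κ * t

/-- the error function for `t > 1`, complex valued -/
noncomputable def zcF (a : ℕ → ℝ) (κ : ℝ) : ℝ → ℂ :=
  (Ioi (1 : ℝ)).indicator (fun t => ((zcE a κ t : ℝ) : ℂ))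

theorem zc_mono (a : ℕ → ℝ) (ha : ∀ k, 0 ≤ a k) :
    Monotone (fun t : ℝ => ∑ k ∈ Finset.Icc 1 ⌊t⌋₊, a k) := by
  intro x y hxy
  apply Finset.sum_le_sum_of_subset_of_nonneg
  · exact Finset.Icc_subset_Icc le_rfl (Nat.floor_le_floor hxy)
  · intro i _ _
    exact ha i

theorem zc_locInt (a : ℕ → ℝ) (ha : ∀ k, 0 ≤ a k) (κ : ℝ) :
    LocallyIntegrable (zcF a κ) volume := by
  unfold zcF
  refine LocallyIntegrable.indicator ?_ measurableSet_Ioi
  have h1 : LocallyIntegrable (fun t : ℝ => ∑ k ∈ Finset.Icc 1 ⌊t⌋₊, a k) volume :=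
    (zc_mono a ha).locallyIntegrable
  have h2 : LocallyIntegrable (fun t : ℝ => κ * t) volume :=
    (continuous_const.mul continuous_id).locallyIntegrable
  have h3 := h1.sub h2
  intro x
  obtain ⟨U, hU, hU2⟩ := h3 x
  exact ⟨U, hU, hU2.ofReal⟩

theorem zc_top (a : ℕ → ℝ) (κ C δ : ℝ)
    (h : ∀ x : ℝ, 1 ≤ x → |(∑ k ∈ Finset.Icc 1 ⌊x⌋₊, a k) - κ * x| ≤ C * x ^ (1 - δ)) :
    zcF a κ =O[atTop] (fun t : ℝ => t ^ (-(δ - 1))) := by
  refine Asymptotics.IsBigO.of_bound C ?_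
  filter_upwards [eventually_gt_atTop (1 : ℝ)] with t ht
  have h1 : zcF a κ t = ((zcE a κ t : ℝ) : ℂ) := by
    unfold zcF
    rw [indicator_of_mem (by exact ht)]
  rw [h1, Complex.norm_real, Real.norm_eq_abs, Real.norm_eq_abs,
    abs_of_nonneg (Real.rpow_nonneg (by linarith) _), neg_sub]
  exact h t ht.le

theorem zc_bot (a : ℕ → ℝ) (κ b : ℝ) :
    zcF a κ =O[𝓝[>] 0] (fun t : ℝ => t ^ (-b)) := by
  refine Asymptotics.IsBigO.of_bound 0 ?_
  have : ∀ᶠ t : ℝ in 𝓝[>] 0, t < 1 :=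
    (eventually_lt_nhds (by norm_num : (0 : ℝ) < 1)).filter_mono nhdsWithin_le_nhds
  filter_upwards [this] with t ht
  have h1 : zcF a κ t = 0 := by
    unfold zcF
    rw [indicator_of_notMem]
    simp only [mem_Ioi, not_lt]
    exact ht.le
  rw [h1, norm_zero, zero_mul]

theorem zc_bigO (a : ℕ → ℝ) (κ C δ : ℝ) (hδ : 0 < δ)
    (h : ∀ x : ℝ, 1 ≤ x → |(∑ k ∈ Finset.Icc 1 ⌊x⌋₊, a k) - κ * x| ≤ C * x ^ (1 - δ)) :
    (fun n : ℕ => ∑ k ∈ Finset.Icc 1 n, a k) =O[atTop] fun n : ℕ => (n : ℝ) ^ (1 : ℝ) := by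
  refine Asymptotics.IsBigO.of_bound (|κ| + |C|) ?_
  filter_upwards [eventually_ge_atTop 1] with n hn
  have hn1 : (1 : ℝ) ≤ n := by exact_mod_cast hn
  have h1 := h n hn1
  rw [Nat.floor_natCast] at h1
  have h2 : (n : ℝ) ^ (1 - δ) ≤ n := by
    calc (n : ℝ) ^ (1 - δ) ≤ (n : ℝ) ^ (1 : ℝ) :=
          Real.rpow_le_rpow_of_exponent_le hn1 (by linarith)
      _ = n := Real.rpow_one _
  have h3 : C * (n : ℝ) ^ (1 - δ) ≤ |C| * n :=
    mul_le_mul (le_abs_self C) h2 (Real.rpow_nonneg (by linarith) _) (abs_nonneg C)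
  rw [Real.rpow_one, Real.norm_eq_abs, Real.norm_eq_abs, abs_of_nonneg (by linarith : (0 : ℝ) ≤ n)]
  have h4 := abs_le.mp (h1.trans h3)
  have h5 := le_abs_self κ
  have h6 := neg_abs_le κ
  rw [abs_le]
  constructor <;> nlinarith

theorem zc_int (a : ℕ → ℝ) (ha : ∀ k, 0 ≤ a k) (κ C δ : ℝ) (hδ : 0 < δ)
    (h : ∀ x : ℝ, 1 ≤ x → |(∑ k ∈ Finset.Icc 1 ⌊x⌋₊, a k) - κ * x| ≤ C * x ^ (1 - δ))
    (s : ℂ) (hs : 1 < s.re) :
    ∫ t in Ioi (1 : ℝ), (∑ k ∈ Finset.Icc 1 ⌊t⌋₊, (a k : ℂ)) * (t : ℂ) ^ (-(s + 1)) =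
      κ / (s - 1) + mellin (zcF a κ) (-s) := by
  have hconv : MellinConvergent (zcF a κ) (-s) := by
    refine mellinConvergent_of_isBigO_rpow (a := δ - 1) (b := (-s).re - 1)
      ((zc_locInt a ha κ).locallyIntegrableOn _) (zc_top a κ C δ h) ?_ (zc_bot a κ _) (by linarith)
    rw [Complex.neg_re]
    linarith
  have hM : mellin (zcF a κ) (-s) =
      ∫ t in Ioi (1 : ℝ), (t : ℂ) ^ (-s - 1) * ((zcE a κ t : ℝ) : ℂ) := by
    unfold mellin
    have e1 : ∀ t : ℝ, (t : ℂ) ^ (-s - 1) • zcF a κ t =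
        (Ioi (1 : ℝ)).indicator (fun t : ℝ => (t : ℂ) ^ (-s - 1) * ((zcE a κ t : ℝ) : ℂ)) t := by
      intro t
      unfold zcF
      by_cases ht : t ∈ Ioi (1 : ℝ)
      · rw [indicator_of_mem ht, indicator_of_mem ht, smul_eq_mul]
      · rw [indicator_of_notMem ht, indicator_of_notMem ht, smul_zero]
    simp_rw [e1]
    rw [setIntegral_indicator measurableSet_Ioi]
    congr 2
    ext t
    simp only [mem_inter_iff, mem_Ioi]
    constructor
    · rintro ⟨_, h2⟩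
      exact h2
    · intro h2
      exact ⟨by linarith, h2⟩
  have hI1 : IntegrableOn (fun t : ℝ => (t : ℂ) ^ (-s - 1) * ((zcE a κ t : ℝ) : ℂ))
      (Ioi (1 : ℝ)) := by
    have h1 : IntegrableOn (fun t : ℝ => (t : ℂ) ^ (-s - 1) • zcF a κ t) (Ioi (1 : ℝ)) :=
      hconv.mono_set (Ioi_subset_Ioi (by norm_num))
    refine h1.congr_fun (fun t ht => ?_) measurableSet_Ioi
    simp only
    unfold zcF
    rw [indicator_of_mem ht, smul_eq_mul]
  have hre : (-s).re < -1 := by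
    rw [Complex.neg_re]
    linarith
  have hI2 : IntegrableOn (fun t : ℝ => (κ : ℂ) * (t : ℂ) ^ (-s)) (Ioi (1 : ℝ)) :=
    (integrableOn_Ioi_cpow_of_lt hre zero_lt_one).const_mul _
  have hpt : ∀ t ∈ Ioi (1 : ℝ),
      (∑ k ∈ Finset.Icc 1 ⌊t⌋₊, (a k : ℂ)) * (t : ℂ) ^ (-(s + 1)) =
      (κ : ℂ) * (t : ℂ) ^ (-s) + (t : ℂ) ^ (-s - 1) * ((zcE a κ t : ℝ) : ℂ) := by
    intro t ht
    have ht0 : (t : ℂ) ≠ 0 := by
      rw [Ne, Complex.ofReal_eq_zero]
      have : (1 : ℝ) < t := ht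
      linarith
    have e1 : (t : ℂ) ^ (-s) = (t : ℂ) ^ (-s - 1) * t := by
      have e3 : (t : ℂ) ^ (-s - 1 + 1) = (t : ℂ) ^ (-s - 1) * (t : ℂ) ^ (1 : ℂ) :=
        Complex.cpow_add _ _ ht0
      rw [Complex.cpow_one, sub_add_cancel] at e3
      exact e3
    have e2 : -(s + 1) = -s - 1 := by ring
    rw [e2, e1]
    unfold zcE
    push_cast
    ring
  rw [setIntegral_congr_fun measurableSet_Ioi hpt, integral_add hI2 hI1, ← hM,
    integral_const_mul, integral_Ioi_cpow_of_lt hre zero_lt_one]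
  congr 1
  have hs1 : s - 1 ≠ 0 := by
    intro h0
    have := congrArg Complex.re h0
    simp at this
    linarith
  have hs2 : -s + 1 ≠ 0 := by
    intro h0
    apply hs1
    linear_combination -h0
  rw [Complex.ofReal_one, Complex.one_cpow]
  field_simp
  ring

theorem cont_sum (a : ℕ → ℝ) (ha : ∀ k, 0 ≤ a k) (κ C δ : ℝ) (hδ : 0 < δ)
    (h : ∀ x : ℝ, 1 ≤ x → |(∑ k ∈ Finset.Icc 1 ⌊x⌋₊, a k) - κ * x| ≤ C * x ^ (1 - δ)) :
    (∀ s : ℂ, 1 < s.re → LSeriesSummable (fun k => (a k : ℂ)) s) ∧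
    ∃ g : ℂ → ℂ, DifferentiableOn ℂ g {s | 1 - δ < s.re} ∧ g 1 = κ ∧
      ∀ s : ℂ, 1 < s.re → g s = (s - 1) * LSeries (fun k => (a k : ℂ)) s := by
  have hO := zc_bigO a κ C δ hδ h
  refine ⟨fun s hs => LSeriesSummable_of_sum_norm_bigO_and_nonneg hO ha zero_le_one hs, ?_⟩
  refine ⟨fun s => κ * s + (s - 1) * s * mellin (zcF a κ) (-s), ?_, ?_, ?_⟩
  · intro s hs
    have hs' : 1 - δ < s.re := hs
    have h1 : DifferentiableAt ℂ (mellin (zcF a κ)) (-s) := by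
      refine mellin_differentiableAt_of_isBigO_rpow (a := δ - 1) (b := (-s).re - 1)
        ((zc_locInt a ha κ).locallyIntegrableOn _) (zc_top a κ C δ h) ?_ (zc_bot a κ _)
        (by linarith)
      rw [Complex.neg_re]
      linarith
    have h2 : DifferentiableAt ℂ (fun s : ℂ => mellin (zcF a κ) (-s)) s :=
      h1.comp s differentiableAt_id.neg
    refine DifferentiableAt.differentiableWithinAt ?_
    exact ((differentiableAt_const _).mul differentiableAt_id).add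
      (((differentiableAt_id.sub (differentiableAt_const _)).mul differentiableAt_id).mul h2)
  · simp
  · intro s hs
    have hs1 : s - 1 ≠ 0 := by
      intro h0
      have := congrArg Complex.re h0
      simp at this
      linarith
    rw [LSeries_eq_mul_integral_of_nonneg a zero_le_one hs hO ha, zc_int a ha κ C δ hδ h s hs]
    field_simp

end H17PIT
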