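import Pool.Agent.H17.PIT.Def

/-!
Row ZI (about 150 lines): the von Mangoldt function on ideals: ∑_{J | I} vMI J = log N I.

vMI_pow: if I = P ^ m then the chosen prime Q with I = Q ^ m', m' ≥ 1, equals P: P ∣ Q ^ m' so P ∣ Q (prime) and both are maximal (Dedekind, nonzero primes: IsPrime.isMaximal), or by unique factorisation: normalizedFactors (P^m) = replicate m P (normalizedFactors_pow, normalizedFactors_irreducible).
vMI_nonneg: Real.log_natCast_nonneg. vMI_one: 1 = P^m, m ≥ 1, is impossible (P ≠ ⊤).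
divisors_finite: for I ≠ ⊥, {J | J ∣ I} is finite (there are instances: UniqueFactorizationMonoid.fintypeSubtypeDvd, or Ideal.finite_factors / absNorm J ≤ absNorm I with Ideal.finite_setOfPred_absNorm_le).
vMI_sum: only the J = P^m with P ∈ normalizedFactors I, 1 ≤ m ≤ count P contribute: J ∣ I and J = P^m, iff P^m ∣ I iff m ≤ count P (UniqueFactorizationMonoid.le_count_iff / count_normalizedFactors..., Ideal.count_normalizedFactors_eq, or Multiset.replicate_le). The map (P, m) ↦ P^m is injective on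
 these pairs (vMI_pow argument, and powers: Ideal pow injective for P ≠ ⊥, ⊤: norms N P ^ m with N P ≥ 2). So the sum is ∑_P ∑_{m=1}^{count P} log N P = ∑_P count P * log N P = log ∏_P (N P)^(count P) = log N I
 (I = (normalizedFactors I).prod: Ideal.prod_normalizedFactors_eq_self; absNorm is multiplicative: map_multiset_prod; Finset.prod_multiset_count; Real.log_prod). Alternative: induction on I with UniqueFactorizationMonoid.induction_on_coprime.
-/

open NumberField UniqueFactorizationMonoid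

namespace H17PIT

variable {K : Type*} [Field K] [NumberField K]

theorem zi_unique (P Q : Ideal (𝓞 K)) (hP : P.IsPrime) (hP0 : P ≠ ⊥) (hQ : Q.IsPrime)
    (hQ0 : Q ≠ ⊥) (m n : ℕ) (hm : 0 < m) (hn : 0 < n) (h : P ^ m = Q ^ n) : P = Q := by
  have hPp : Prime P := Ideal.prime_of_isPrime hP0 hP
  have hQp : Prime Q := Ideal.prime_of_isPrime hQ0 hQ
  have h1 : P ∣ Q := by
    apply hPp.dvd_of_dvd_pow (n := n)
    rw [← h]
    exact dvd_pow_self P hm.ne'
  have h2 : Q ∣ P := by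
    apply hQp.dvd_of_dvd_pow (n := m)
    rw [h]
    exact dvd_pow_self Q hn.ne'
  exact le_antisymm (Ideal.dvd_iff_le.mp h2) (Ideal.dvd_iff_le.mp h1)

theorem zi_norm_gt (P : Ideal (𝓞 K)) (hP : P.IsPrime) (hP0 : P ≠ ⊥) :
    1 < Ideal.absNorm P := by
  have h0 : Ideal.absNorm P ≠ 0 := by
    rw [Ne, Ideal.absNorm_eq_zero_iff]
    exact hP0
  have h1 : Ideal.absNorm P ≠ 1 := by
    rw [Ne, Ideal.absNorm_eq_one_iff]
    exact hP.ne_top
  omega

theorem vMI_pow (P : Ideal (𝓞 K)) (hP : P.IsPrime) (hP0 : P ≠ ⊥) (m : ℕ) (hm : 0 < m) :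
    vMI (P ^ m) = Real.log (Ideal.absNorm P) := by
  have hex : ∃ Q : Ideal (𝓞 K), (Q.IsPrime ∧ Q ≠ ⊥) ∧ ∃ n : ℕ, 0 < n ∧ P ^ m = Q ^ n :=
    ⟨P, ⟨hP, hP0⟩, m, hm, rfl⟩
  unfold vMI
  rw [dif_pos hex]
  obtain ⟨⟨hQ, hQ0⟩, n, hn, h⟩ := hex.choose_spec
  rw [← zi_unique P _ hP hP0 hQ hQ0 m n hm hn h]

theorem vMI_eq_zero (I : Ideal (𝓞 K))
    (h : ¬ ∃ P : Ideal (𝓞 K), (P.IsPrime ∧ P ≠ ⊥) ∧ ∃ m : ℕ, 0 < m ∧ I = P ^ m) : vMI I = 0 := by
  unfold vMI
  rw [dif_neg h]

theorem vMI_nonneg (I : Ideal (𝓞 K)) : 0 ≤ vMI I := by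
  unfold vMI
  split_ifs with h
  · exact Real.log_natCast_nonneg _
  · exact le_rfl

theorem divisors_finite (I : Ideal (𝓞 K)) (hI : I ≠ ⊥) : {J : Ideal (𝓞 K) | J ∣ I}.Finite := by
  refine (Ideal.finite_setOfPred_absNorm_le (Ideal.absNorm I)).subset ?_
  intro J hJ
  have h1 : Ideal.absNorm J ∣ Ideal.absNorm I := map_dvd Ideal.absNorm hJ
  have h2 : Ideal.absNorm I ≠ 0 := by
    rw [Ne, Ideal.absNorm_eq_zero_iff]
    exact hI
  exact Nat.le_of_dvd (Nat.pos_of_ne_zero h2) h1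

open Classical in
theorem zi_count (P I : Ideal (𝓞 K)) (hP : Prime P) (hI : I ≠ ⊥) (m : ℕ) :
    P ^ m ∣ I ↔ m ≤ (normalizedFactors I).count P := by
  rw [pow_dvd_iff_le_emultiplicity,
    emultiplicity_eq_count_normalizedFactors hP.irreducible hI, normalize_eq, Nat.cast_le]

theorem vMI_sum (I : Ideal (𝓞 K)) (hI : I ≠ ⊥) :
    ∑ J ∈ (divisors_finite I hI).toFinset, vMI J = Real.log (Ideal.absNorm I) := by
  classical
  obtain ⟨S, hS⟩ : ∃ S : Finset (Ideal (𝓞 K)), S = (normalizedFactors I).toFinset := ⟨_, rfl⟩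
  have hSm : ∀ P ∈ S, Prime P := by
    intro P hP
    rw [hS, Multiset.mem_toFinset] at hP
    exact prime_of_normalized_factor P hP
  have hSp : ∀ P ∈ S, P.IsPrime ∧ P ≠ ⊥ := by
    intro P hP
    exact ⟨Ideal.isPrime_of_prime (hSm P hP), (hSm P hP).ne_zero⟩
  obtain ⟨T, hT⟩ : ∃ T : Finset (Σ _ : Ideal (𝓞 K), ℕ),
      T = S.sigma (fun P => Finset.Icc 1 ((normalizedFactors I).count P)) := ⟨_, rfl⟩
  have hTm : ∀ x ∈ T, x.1 ∈ S ∧ 1 ≤ x.2 ∧ x.2 ≤ (normalizedFactors I).count x.1 := by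
    intro x hx
    rw [hT, Finset.mem_sigma, Finset.mem_Icc] at hx
    exact hx
  have hinj : ∀ x ∈ T, ∀ y ∈ T, x.1 ^ x.2 = y.1 ^ y.2 → x = y := by
    rintro ⟨P, m⟩ hx ⟨Q, n⟩ hy hxy
    obtain ⟨h1, h2, _⟩ := hTm _ hx
    obtain ⟨h4, h5, _⟩ := hTm _ hy
    simp only at h1 h2 h4 h5 hxy
    obtain ⟨hP, hP0⟩ := hSp P h1
    obtain ⟨hQ, hQ0⟩ := hSp Q h4
    have hPQ := zi_unique P Q hP hP0 hQ hQ0 m n (by omega) (by omega) hxy
    subst hPQ
    have h7 : Ideal.absNorm P ^ m = Ideal.absNorm P ^ n := by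
      rw [← map_pow, ← map_pow, hxy]
    have h8 := Nat.pow_right_injective (zi_norm_gt P hP hP0) h7
    rw [h8]
  have himg : ∑ J ∈ (divisors_finite I hI).toFinset, vMI J =
      ∑ J ∈ T.image (fun x => x.1 ^ x.2), vMI J := by
    symm
    apply Finset.sum_subset
    · intro J hJ
      rw [Finset.mem_image] at hJ
      obtain ⟨x, hx, rfl⟩ := hJ
      obtain ⟨h1, _, h3⟩ := hTm _ hx
      rw [Set.Finite.mem_toFinset]
      exact (zi_count x.1 I (hSm _ h1) hI x.2).mpr h3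
    · intro J hJ hJ2
      apply vMI_eq_zero
      rintro ⟨P, ⟨hP, hP0⟩, m, hm, rfl⟩
      apply hJ2
      rw [Set.Finite.mem_toFinset] at hJ
      have hJd : P ^ m ∣ I := hJ
      have hPp : Prime P := Ideal.prime_of_isPrime hP0 hP
      have hc := (zi_count P I hPp hI m).mp hJd
      rw [Finset.mem_image]
      refine ⟨⟨P, m⟩, ?_, rfl⟩
      rw [hT, Finset.mem_sigma, Finset.mem_Icc]
      refine ⟨?_, by simp only; omega, hc⟩
      rw [hS, Multiset.mem_toFinset, ← Multiset.count_pos]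
      simp only
      omega
  rw [himg, Finset.sum_image (fun x hx y hy h => hinj x hx y hy h)]
  have hterm : ∑ x ∈ T, vMI (x.1 ^ x.2) = ∑ x ∈ T, Real.log (Ideal.absNorm x.1) := by
    apply Finset.sum_congr rfl
    intro x hx
    obtain ⟨h1, h2, _⟩ := hTm _ hx
    obtain ⟨hP, hP0⟩ := hSp x.1 h1
    exact vMI_pow x.1 hP hP0 x.2 (by omega)
  rw [hterm, hT, Finset.sum_sigma]
  have hin : ∀ P ∈ S, ∑ _m ∈ Finset.Icc 1 ((normalizedFactors I).count P),
      Real.log (Ideal.absNorm P) = ((normalizedFactors I).count P : ℝ) *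
        Real.log (Ideal.absNorm P) := by
    intro P _
    rw [Finset.sum_const, Nat.card_Icc, nsmul_eq_mul]
    congr 2
  rw [Finset.sum_congr rfl hin]
  have hprod : Ideal.absNorm I = ∏ P ∈ S, Ideal.absNorm P ^ (normalizedFactors I).count P := by
    have h1 : (normalizedFactors I).prod = I := Ideal.prod_normalizedFactors_eq_self hI
    conv_lhs => rw [← h1, Finset.prod_multiset_count, map_prod]
    rw [hS]
    apply Finset.prod_congr rfl
    intro P _
    rw [map_pow]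
  rw [hprod, Nat.cast_prod, Real.log_prod]
  · apply Finset.sum_congr rfl
    intro P _
    rw [Nat.cast_pow, Real.log_pow]
  · intro P hP
    obtain ⟨hPp, hP0⟩ := hSp P hP
    have := zi_norm_gt P hPp hP0
    have h2 : (Ideal.absNorm P : ℝ) ≠ 0 := by
      have : Ideal.absNorm P ≠ 0 := by omega
      exact_mod_cast this
    rw [Nat.cast_pow]
    exact pow_ne_zero _ h2

end H17PIT
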