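import Mathlib

/-!
Row ZN (about 170 lines, Mathlib only): non-vanishing on Re s ≥ 1 by 3 + 4 cos + cos 2.

zn_order. If g is analytic at s₀ with analyticOrderAt g s₀ = m finite then u g'(s₀ + u) / g(s₀ + u) → m as u → 0+ (u real): g(z) = (z - s₀)^m h(z) near s₀ with h analytic, h(s₀) ≠ 0 (AnalyticAt.analyticOrderAt_eq_natCast), so near s₀, z ≠ s₀:
 g'/g = m/(z - s₀) + h'/h (deriv of the product, eventually equal functions have equal derivatives: EventuallyEq.deriv) and u h'(s₀+u)/h(s₀+u) → 0.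
zn_341. For σ > 1: term by term, for k ≥ 1 Re of k^(-σ) (3 + 4 k^(-it) + k^(-2it)) = k^(-σ) (3 + 4 cos θ + cos 2θ) = 2 k^(-σ) (1 + cos θ)^2 ≥ 0, θ = t log k (Complex.natCast_cpow_... / Complex.cpow_def, Complex.exp_re; norm: Complex.norm_natCast_cpow_of_pos), Λ k ≥ 0.
 LSeries = tsum of LSeries.term; Complex.re of a tsum: Complex.hasSum_re / (hasSum).mapL; tsum_nonneg.
nonvanish. By hZ, for Re s > 1 : g = (s-1) Z. g is not locally zero anywhere on the connected set U = {1 - δ < Re s} (otherwise g = 0 on U by AnalyticOnNhd.eqOn_zero_of_preconnected_of_eventuallyEq_zero, but g 1 ≠ 0), so at every s₀ ∈ U the order m(s₀) is finite, and g(s₀) = 0 iff m(s₀) ≥ 1.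
 For Re s₀ ≥ 1 and small u > 0, s = s₀ + u has Re s > 1, g(s) ≠ 0 (zeros of finite order are isolated: AnalyticAt.eventually_eq_zero_or_eventually_ne_zero), so Z(s) ≠ 0, and L(s) = LSeries Λ s = -Z'(s)/Z(s), where near s Z = g/(z-1): Z'/Z = g'/g - 1/(s-1). So
 u L(s₀+u) = - u g'/g (s₀+u) + u/(s₀ + u - 1) → - m(s₀) + (1 if s₀ = 1 else 0).
 (i) Re s₀ > 1: L is continuous at s₀ (LSeries_analyticOnNhd / LSeriesSummable: abscissa ≤ 1: LSeries_analyticOnNhd on the half plane; LSeries.abscissaOfAbsConv_le_of_forall_lt_LSeriesSummable') so u L(s₀+u) → 0 and m(s₀) = 0. (ii) s₀ = 1: given. (iii) s₀ = 1 + it, t ≠ 0: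
 zn_341 at σ = 1 + u times u, in the limit: 3 * 1 - 4 m(1 + it) - m(1 + 2it) ≥ 0, so m(1 + it) = 0.
-/

open Filter Topology Set Complex

namespace H17PIT

theorem zn_path (s₀ : ℂ) : Tendsto (fun u : ℝ => s₀ + (u : ℂ)) (𝓝[>] 0) (𝓝 s₀) := by
  have h1 : Continuous (fun u : ℝ => s₀ + (u : ℂ)) :=
    continuous_const.add Complex.continuous_ofReal
  have h2 := h1.tendsto 0
  simp only [Complex.ofReal_zero, add_zero] at h2
  exact h2.mono_left nhdsWithin_le_nhds

theorem zn_path_ne (s₀ : ℂ) : Tendsto (fun u : ℝ => s₀ + (u : ℂ)) (𝓝[>] 0) (𝓝[≠] s₀) := by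
  refine tendsto_nhdsWithin_iff.mpr ⟨zn_path s₀, ?_⟩
  filter_upwards [self_mem_nhdsWithin] with u hu
  have hu0 : (0 : ℝ) < u := hu
  simp only [mem_compl_iff, mem_singleton_iff, add_eq_left, Complex.ofReal_eq_zero]
  exact hu0.ne'

theorem zn_order (g : ℂ → ℂ) (s₀ : ℂ) (hg : AnalyticAt ℂ g s₀) (m : ℕ)
    (hm : analyticOrderAt g s₀ = m) :
    Tendsto (fun u : ℝ => (u : ℂ) * (deriv g (s₀ + u) / g (s₀ + u))) (𝓝[>] 0) (𝓝 (m : ℂ)) := by
  obtain ⟨h, hh, hh0, hgh⟩ := (hg.analyticOrderAt_eq_natCast).mp hm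
  have h1 : ∀ᶠ z in 𝓝 s₀, deriv g z = m * (z - s₀) ^ (m - 1) * h z + (z - s₀) ^ m * deriv h z := by
    filter_upwards [hgh.eventually_nhds, hh.eventually_analyticAt] with z hz hz2
    have e1 : deriv g z = deriv (fun z => (z - s₀) ^ m * h z) z := by
      apply Filter.EventuallyEq.deriv_eq
      filter_upwards [hz] with w hw
      rw [hw, smul_eq_mul]
    rw [e1]
    have e2 : HasDerivAt (fun z => (z - s₀) ^ m) (m * (z - s₀) ^ (m - 1)) z := by
      have := ((hasDerivAt_id z).sub_const s₀).fun_pow m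
      simpa using this
    have e3 := e2.mul hz2.differentiableAt.hasDerivAt
    exact e3.deriv
  have h2 : ∀ᶠ z in 𝓝 s₀, h z ≠ 0 := hh.continuousAt.eventually_ne hh0
  have h3 : ∀ᶠ u : ℝ in 𝓝[>] 0, (m : ℂ) + u * (deriv h (s₀ + u) / h (s₀ + u)) =
      (u : ℂ) * (deriv g (s₀ + u) / g (s₀ + u)) := by
    filter_upwards [(zn_path s₀).eventually h1, (zn_path s₀).eventually h2,
      (zn_path s₀).eventually hgh, self_mem_nhdsWithin] with u hu1 hu2 hu3 hu4
    have hu0 : (0 : ℝ) < u := hu4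
    have huc : (u : ℂ) ≠ 0 := by
      rw [Ne, Complex.ofReal_eq_zero]
      exact hu0.ne'
    rw [hu1, hu3, smul_eq_mul, add_sub_cancel_left]
    rcases Nat.eq_zero_or_pos m with hm0 | hm0
    · subst hm0
      simp
    · have e1 : (u : ℂ) ^ m = u ^ (m - 1) * u := by
        rw [← pow_succ, Nat.sub_add_cancel hm0]
      rw [e1]
      have : (u : ℂ) ^ (m - 1) ≠ 0 := pow_ne_zero _ huc
      field_simp
  have h4 : Tendsto (fun u : ℝ => (m : ℂ) + u * (deriv h (s₀ + u) / h (s₀ + u)))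
      (𝓝[>] 0) (𝓝 (m : ℂ)) := by
    have e1 : Tendsto (fun u : ℝ => (u : ℂ)) (𝓝[>] 0) (𝓝 0) := by
      have := (Complex.continuous_ofReal.tendsto 0).mono_left
        (nhdsWithin_le_nhds (s := Ioi (0 : ℝ)))
      simpa using this
    have e2 : Tendsto (fun u : ℝ => deriv h (s₀ + u) / h (s₀ + u)) (𝓝[>] 0)
        (𝓝 (deriv h s₀ / h s₀)) :=
      ((hh.deriv.continuousAt.tendsto.comp (zn_path s₀))).div
        (hh.continuousAt.tendsto.comp (zn_path s₀)) hh0
    have e3 := (tendsto_const_nhds (x := (m : ℂ))).add (e1.mul e2)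
    simpa using e3
  exact h4.congr' h3

theorem zn_term (Λ : ℕ → ℝ) (n : ℕ) (σ t : ℝ) :
    (LSeries.term (fun k => (Λ k : ℂ)) ((σ : ℂ) + t * I) n).re =
      (if n = 0 then 0 else Λ n * Real.exp (-(σ * Real.log n)) * Real.cos (t * Real.log n)) := by
  rw [LSeries.term_def]
  split_ifs with hn
  · simp
  · have hn' : (n : ℂ) ≠ 0 := Nat.cast_ne_zero.mpr hn
    have e1 : (n : ℂ) ^ ((σ : ℂ) + t * I) =
        Complex.exp (((σ * Real.log n : ℝ) : ℂ) + ((t * Real.log n : ℝ) : ℂ) * I) := by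
      rw [Complex.cpow_def_of_ne_zero hn', ← Complex.natCast_log]
      congr 1
      push_cast
      ring
    rw [e1, div_eq_mul_inv, ← Complex.exp_neg, Complex.re_ofReal_mul, Complex.exp_re]
    simp only [neg_re, neg_im, add_re, add_im, ofReal_re, ofReal_im, mul_re, mul_im, I_re, I_im,
      mul_zero, mul_one, sub_zero, zero_add, add_zero, Real.cos_neg]
    ring

theorem zn_341 (Λ : ℕ → ℝ) (hΛ : ∀ k, 0 ≤ Λ k)
    (hs : ∀ s : ℂ, 1 < s.re → LSeriesSummable (fun k => (Λ k : ℂ)) s) (σ t : ℝ) (hσ : 1 < σ) :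
    0 ≤ (3 * LSeries (fun k => (Λ k : ℂ)) σ + 4 * LSeries (fun k => (Λ k : ℂ)) (σ + t * I) +
      LSeries (fun k => (Λ k : ℂ)) (σ + 2 * t * I)).re := by
  have h1 := (hs (σ : ℂ) (by simpa using hσ)).hasSum
  have h2 := (hs ((σ : ℂ) + t * I) (by simpa using hσ)).hasSum
  have h3 := (hs ((σ : ℂ) + 2 * t * I) (by simpa using hσ)).hasSum
  have h4 := ((h1.mul_left 3).add (h2.mul_left 4)).add h3
  have h5 := ((Complex.hasSum_iff _ _).mp h4).1
  refine h5.nonneg (fun n => ?_)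
  have e1 := zn_term Λ n σ 0
  have e2 := zn_term Λ n σ t
  have e3 := zn_term Λ n σ (2 * t)
  simp only [Complex.ofReal_zero, zero_mul, add_zero, Real.cos_zero, mul_one] at e1
  push_cast at e3
  have e4 : ((3 : ℂ) * LSeries.term (fun k => (Λ k : ℂ)) (σ : ℂ) n +
      4 * LSeries.term (fun k => (Λ k : ℂ)) ((σ : ℂ) + t * I) n +
      LSeries.term (fun k => (Λ k : ℂ)) ((σ : ℂ) + 2 * t * I) n).re =
      3 * (LSeries.term (fun k => (Λ k : ℂ)) (σ : ℂ) n).re +
      4 * (LSeries.term (fun k => (Λ k : ℂ)) ((σ : ℂ) + t * I) n).re +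
      (LSeries.term (fun k => (Λ k : ℂ)) ((σ : ℂ) + 2 * t * I) n).re := by
    simp [Complex.add_re, Complex.mul_re]
  rw [e4, e1, e2, e3]
  split_ifs with hn
  · simp
  · have hcos : Real.cos (2 * t * Real.log n) = 2 * Real.cos (t * Real.log n) ^ 2 - 1 := by
      rw [← Real.cos_two_mul]
      congr 1
      ring
    rw [hcos]
    have hp : 0 ≤ Λ n * Real.exp (-(σ * Real.log n)) := mul_nonneg (hΛ n) (Real.exp_pos _).le
    have : 3 * (Λ n * Real.exp (-(σ * Real.log n))) +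
        4 * (Λ n * Real.exp (-(σ * Real.log n)) * Real.cos (t * Real.log n)) +
        Λ n * Real.exp (-(σ * Real.log n)) * (2 * Real.cos (t * Real.log n) ^ 2 - 1) =
        2 * (Λ n * Real.exp (-(σ * Real.log n))) * (1 + Real.cos (t * Real.log n)) ^ 2 := by
      ring
    rw [this]
    positivity

theorem zn_lim (Λ : ℕ → ℝ) (Z g : ℂ → ℂ) (δ : ℝ)
    (hδ : 0 < δ) (hg : DifferentiableOn ℂ g {s | 1 - δ < s.re}) (hg1 : g 1 ≠ 0)
    (hZ : ∀ s : ℂ, 1 < s.re → g s = (s - 1) * Z s)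
    (hL : ∀ s : ℂ, 1 < s.re → LSeries (fun k => (Λ k : ℂ)) s * Z s = -deriv Z s)
    (s₀ : ℂ) (hs₀ : 1 ≤ s₀.re) :
    ∃ m : ℕ, analyticOrderAt g s₀ = m ∧
      Tendsto (fun u : ℝ => (u : ℂ) * LSeries (fun k => (Λ k : ℂ)) (s₀ + u)) (𝓝[>] 0)
        (𝓝 (-(m : ℂ) + if s₀ = 1 then 1 else 0)) := by
  have hUo : IsOpen {s : ℂ | 1 - δ < s.re} := isOpen_lt continuous_const Complex.continuous_re
  have hUc : IsPreconnected {s : ℂ | 1 - δ < s.re} :=
    (convex_halfSpace_re_gt (1 - δ)).isPreconnected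
  have hgA : AnalyticOnNhd ℂ g {s : ℂ | 1 - δ < s.re} := hg.analyticOnNhd hUo
  have hs₀U : s₀ ∈ {s : ℂ | 1 - δ < s.re} := by
    simp only [mem_ofPred_eq]
    linarith
  have h1U : (1 : ℂ) ∈ {s : ℂ | 1 - δ < s.re} := by
    simp only [mem_ofPred_eq, Complex.one_re]
    linarith
  have hfin : analyticOrderAt g s₀ ≠ ⊤ := by
    intro htop
    rw [analyticOrderAt_eq_top] at htop
    have := hgA.eqOn_zero_of_preconnected_of_eventuallyEq_zero hUc hs₀U htop
    exact hg1 (this h1U)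
  obtain ⟨m, hm⟩ := ENat.ne_top_iff_exists.mp hfin
  refine ⟨m, hm.symm, ?_⟩
  have hlim1 := zn_order g s₀ (hgA s₀ hs₀U) m hm.symm
  have hne : ∀ᶠ z in 𝓝[≠] s₀, g z ≠ 0 := by
    rcases (hgA s₀ hs₀U).eventually_eq_zero_or_eventually_ne_zero with h | h
    · exact absurd (analyticOrderAt_eq_top.mpr h) hfin
    · exact h
  have hev : ∀ᶠ u : ℝ in 𝓝[>] 0, -((u : ℂ) * (deriv g (s₀ + u) / g (s₀ + u))) +
      (u : ℂ) / (s₀ + u - 1) = (u : ℂ) * LSeries (fun k => (Λ k : ℂ)) (s₀ + u) := by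
    filter_upwards [(zn_path_ne s₀).eventually hne, self_mem_nhdsWithin] with u hu1 hu2
    have hu0 : (0 : ℝ) < u := hu2
    have hre : 1 < (s₀ + (u : ℂ)).re := by
      rw [Complex.add_re, Complex.ofReal_re]
      linarith
    obtain ⟨s, hs⟩ : ∃ s : ℂ, s = s₀ + u := ⟨_, rfl⟩
    rw [← hs] at hu1 hre ⊢
    have hs1 : s - 1 ≠ 0 := by
      intro h0
      have := congrArg Complex.re h0
      simp at this
      linarith
    have hopen : ∀ᶠ z in 𝓝 s, 1 < z.re :=
      (isOpen_lt continuous_const Complex.continuous_re).mem_nhds hre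
    have hne1 : ∀ᶠ z in 𝓝 s, z - 1 ≠ 0 := by
      filter_upwards [hopen] with z hz h0
      have := congrArg Complex.re h0
      simp at this
      linarith
    have hZeq : Z =ᶠ[𝓝 s] fun z => g z / (z - 1) := by
      filter_upwards [hopen, hne1] with z hz hz1
      rw [hZ z hz, mul_div_cancel_left₀ _ hz1]
    have hgd : DifferentiableAt ℂ g s := by
      have : s ∈ {s : ℂ | 1 - δ < s.re} := by
        simp only [mem_ofPred_eq]
        linarith
      exact (hgA s this).differentiableAt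
    have hd1 : HasDerivAt (fun z : ℂ => z - 1) 1 s := (hasDerivAt_id s).sub_const 1
    have hZd : deriv Z s = (deriv g s * (s - 1) - g s * 1) / (s - 1) ^ 2 := by
      rw [hZeq.deriv_eq]
      exact (hgd.hasDerivAt.div hd1 hs1).deriv
    have hgs := hZ s hre
    have hZ0 : Z s ≠ 0 := by
      intro h0
      rw [h0, mul_zero] at hgs
      exact hu1 hgs
    have hLs := hL s hre
    have hL2 : LSeries (fun k => (Λ k : ℂ)) s = -deriv Z s / Z s := by
      rw [← hLs, mul_div_cancel_right₀ _ hZ0]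
    rw [hL2, hZd]
    have hZg : Z s = g s / (s - 1) := by
      rw [hgs, mul_div_cancel_left₀ _ hs1]
    rw [hZg]
    field_simp
    ring
  refine Tendsto.congr' hev ?_
  refine hlim1.neg.add ?_
  have e1 : Tendsto (fun u : ℝ => (u : ℂ)) (𝓝[>] 0) (𝓝 0) := by
    have := (Complex.continuous_ofReal.tendsto 0).mono_left
      (nhdsWithin_le_nhds (s := Ioi (0 : ℝ)))
    simpa using this
  by_cases h1 : s₀ = 1
  · rw [if_pos h1]
    refine Tendsto.congr' ?_ tendsto_const_nhds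
    filter_upwards [self_mem_nhdsWithin] with u hu
    have hu0 : (0 : ℝ) < u := hu
    have huc : (u : ℂ) ≠ 0 := by
      rw [Ne, Complex.ofReal_eq_zero]
      exact hu0.ne'
    rw [h1, add_sub_cancel_left, div_self huc]
  · rw [if_neg h1]
    have e2 : Tendsto (fun u : ℝ => s₀ + (u : ℂ) - 1) (𝓝[>] 0) (𝓝 (s₀ - 1)) :=
      (zn_path s₀).sub tendsto_const_nhds
    have e3 := e1.div e2 (sub_ne_zero.mpr h1)
    rwa [zero_div] at e3

theorem nonvanish (Λ : ℕ → ℝ) (hΛ : ∀ k, 0 ≤ Λ k)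
    (hs : ∀ s : ℂ, 1 < s.re → LSeriesSummable (fun k => (Λ k : ℂ)) s) (Z g : ℂ → ℂ) (δ : ℝ)
    (hδ : 0 < δ) (hg : DifferentiableOn ℂ g {s | 1 - δ < s.re}) (hg1 : g 1 ≠ 0)
    (hZ : ∀ s : ℂ, 1 < s.re → g s = (s - 1) * Z s)
    (hL : ∀ s : ℂ, 1 < s.re → LSeries (fun k => (Λ k : ℂ)) s * Z s = -deriv Z s) :
    ∀ s : ℂ, 1 ≤ s.re → g s ≠ 0 := by
  intro s₀ hs₀
  have hUo : IsOpen {s : ℂ | 1 - δ < s.re} := isOpen_lt continuous_const Complex.continuous_re
  have hgA : AnalyticOnNhd ℂ g {s : ℂ | 1 - δ < s.re} := hg.analyticOnNhd hUo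
  have hord : ∀ s : ℂ, 1 ≤ s.re → (analyticOrderAt g s = 0 ↔ g s ≠ 0) := by
    intro s hs1
    have : s ∈ {s : ℂ | 1 - δ < s.re} := by
      simp only [mem_ofPred_eq]
      linarith
    exact (hgA s this).analyticOrderAt_eq_zero
  rcases hs₀.lt_or_eq with hlt | heq
  · obtain ⟨m, hm, hlim⟩ := zn_lim Λ Z g δ hδ hg hg1 hZ hL s₀ hs₀
    have hab : LSeries.abscissaOfAbsConv (fun k => (Λ k : ℂ)) ≤ (1 : ℝ) := by
      apply LSeries.abscissaOfAbsConv_le_of_forall_lt_LSeriesSummable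
      intro y hy
      exact hs y (by simpa using hy)
    have hLa : AnalyticAt ℂ (LSeries (fun k => (Λ k : ℂ))) s₀ := by
      refine LSeries_analyticOnNhd _ s₀ ?_
      exact lt_of_le_of_lt hab (by exact_mod_cast hlt)
    have h1 : Tendsto (fun u : ℝ => (u : ℂ) * LSeries (fun k => (Λ k : ℂ)) (s₀ + u)) (𝓝[>] 0)
        (𝓝 (0 * LSeries (fun k => (Λ k : ℂ)) s₀)) := by
      have e1 : Tendsto (fun u : ℝ => (u : ℂ)) (𝓝[>] 0) (𝓝 0) := by
        have := (Complex.continuous_ofReal.tendsto 0).mono_left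
          (nhdsWithin_le_nhds (s := Ioi (0 : ℝ)))
        simpa using this
      exact e1.mul (hLa.continuousAt.tendsto.comp (zn_path s₀))
    have h2 := tendsto_nhds_unique hlim h1
    have h3 : s₀ ≠ 1 := by
      intro h0
      rw [h0, Complex.one_re] at hlt
      exact lt_irrefl _ hlt
    rw [if_neg h3, zero_mul, add_zero, neg_eq_zero] at h2
    have h4 : m = 0 := by exact_mod_cast h2
    rw [h4] at hm
    exact (hord s₀ hs₀).mp (by simpa using hm)
  · obtain ⟨t, ht⟩ : ∃ t, t = s₀.im := ⟨_, rfl⟩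
    have hs0 : s₀ = 1 + t * I := by
      apply Complex.ext <;> simp [← heq, ht]
    by_cases ht0 : t = 0
    · rw [hs0, ht0]
      simpa using hg1
    obtain ⟨m0, hm0, hl0⟩ := zn_lim Λ Z g δ hδ hg hg1 hZ hL 1 (by simp)
    obtain ⟨m1, hm1, hl1⟩ := zn_lim Λ Z g δ hδ hg hg1 hZ hL (1 + t * I) (by simp)
    obtain ⟨m2, hm2, hl2⟩ := zn_lim Λ Z g δ hδ hg hg1 hZ hL (1 + 2 * t * I) (by simp)
    have hm00 : m0 = 0 := by
      have := (hord 1 (by simp)).mpr hg1
      rw [hm0] at this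
      exact_mod_cast this
    have hne1 : (1 : ℂ) + t * I ≠ 1 := by
      intro h0
      have := congrArg Complex.im h0
      simp at this
      exact ht0 this
    have hne2 : (1 : ℂ) + 2 * t * I ≠ 1 := by
      intro h0
      have := congrArg Complex.im h0
      simp at this
      exact ht0 this
    rw [if_pos rfl, hm00] at hl0
    rw [if_neg hne1, add_zero] at hl1
    rw [if_neg hne2, add_zero] at hl2
    have hcomb := (((hl0.const_mul 3).add (hl1.const_mul 4)).add hl2)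
    have hre := (Complex.continuous_re.tendsto _).comp hcomb
    have hnn : (0 : ℝ) ≤ (3 * (-((0 : ℕ) : ℂ) + 1) + 4 * -(m1 : ℂ) + -(m2 : ℂ)).re := by
      refine ge_of_tendsto hre ?_
      filter_upwards [self_mem_nhdsWithin] with u hu
      have hu0 : (0 : ℝ) < u := hu
      simp only [Function.comp]
      have h341 := zn_341 Λ hΛ hs (1 + u) t (by linarith)
      have e1 : (3 * ((u : ℂ) * LSeries (fun k => (Λ k : ℂ)) (1 + u)) +
          4 * ((u : ℂ) * LSeries (fun k => (Λ k : ℂ)) (1 + t * I + u)) +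
          (u : ℂ) * LSeries (fun k => (Λ k : ℂ)) (1 + 2 * t * I + u)) =
          (u : ℂ) * (3 * LSeries (fun k => (Λ k : ℂ)) ((1 + u : ℝ) : ℂ) +
          4 * LSeries (fun k => (Λ k : ℂ)) (((1 + u : ℝ) : ℂ) + t * I) +
          LSeries (fun k => (Λ k : ℂ)) (((1 + u : ℝ) : ℂ) + 2 * t * I)) := by
        have a1 : (1 : ℂ) + t * I + u = ((1 + u : ℝ) : ℂ) + t * I := by
          push_cast
          ring
        have a2 : (1 : ℂ) + 2 * t * I + u = ((1 + u : ℝ) : ℂ) + 2 * t * I := by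
          push_cast
          ring
        have a3 : (1 : ℂ) + u = ((1 + u : ℝ) : ℂ) := by
          push_cast
          ring
        rw [a1, a2, a3]
        ring
      rw [e1, Complex.re_ofReal_mul]
      exact mul_nonneg hu0.le h341
    have hm1' : m1 = 0 := by
      simp only [Nat.cast_zero, neg_zero, zero_add, mul_one, Complex.add_re, Complex.neg_re,
        Complex.natCast_re, Complex.mul_re, Complex.re_ofNat, Complex.im_ofNat, zero_mul,
        sub_zero] at hnn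
      have h1 : (4 : ℝ) * m1 ≤ 3 := by
        have : (0 : ℝ) ≤ m2 := Nat.cast_nonneg _
        linarith
      have h2 : 4 * m1 ≤ 3 := by exact_mod_cast h1
      omega
    rw [hm1'] at hm1
    rw [hs0]
    exact (hord _ (by simp)).mp (by simpa using hm1)

end H17PIT
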