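import Pool.Agent.H17.PIT.ZI

/-!
Row ZV (about 130 lines): the Dirichlet convolution LamK * aK = aK log and the identity of L-series.

conv_id. For k ≥ 1: ∑_{(i,j) ∈ divisorsAntidiagonal k} LamK K i * aK K j = ∑ over pairs (J, J') of ideals with N J * N J' = k of vMI J (aK K j = card of the finset of ideals of norm j: Nat.card_eq_card_toFinset..., Finset.sum_product, Finset.sum_sigma).
 Every pair gives I = J J' with N I = k (map_mul) and J ∣ I; conversely for I with N I = k (so I ≠ ⊥) and J ∣ I there is exactly one J' with I = J J' (mul_left_cancel₀, J ≠ 0) and N J ∣ k. So the sum is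
 ∑_{I : N I = k} ∑_{J ∣ I} vMI J = ∑_{I : N I = k} log k = aK K k * log k (vMI_sum). Use Finset.sum_bij' / Finset.sum_nbij' on sigma types with maps (J, J') ↦ (J J', J) and back.
lser_id. For Re s > 1, given LSeriesSummable of both: LSeries Λ s * LSeries a s = LSeries (Λ ⍟ a) s (LSeries_convolution'), the convolution at k ≥ 1 is a k * log k by conv_id (LSeries.convolution_def), LSeries (log a) = - deriv (LSeries a) (LSeries_deriv: deriv (LSeries f) s = - LSeries (logMul f) s, for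
 abscissaOfAbsConv f < s.re: use LSeries.abscissaOfAbsConv_le_of_forall_lt_LSeriesSummable' with 1). LSeries_congr (only k ≠ 0 matters).
-/

open NumberField Filter Topology

namespace H17PIT

/-- finset of ideals of norm `k` -/
noncomputable def zvS (K : Type*) [Field K] [NumberField K] (k : ℕ) : Finset (Ideal (𝓞 K)) :=
  (Ideal.finite_setOfPred_absNorm_eq (S := 𝓞 K) k).toFinset

theorem zv_mem (K : Type*) [Field K] [NumberField K] (k : ℕ) (I : Ideal (𝓞 K)) :
    I ∈ zvS K k ↔ Ideal.absNorm I = k := by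
  unfold zvS
  rw [Set.Finite.mem_toFinset]
  rfl

theorem zv_card (K : Type*) [Field K] [NumberField K] (k : ℕ) : aK K k = (zvS K k).card := by
  unfold aK zvS
  rw [← Set.ncard_eq_toFinset_card _ (Ideal.finite_setOfPred_absNorm_eq (S := 𝓞 K) k)]
  exact Nat.card_coe_set_eq _

theorem conv_id (K : Type*) [Field K] [NumberField K] (k : ℕ) (hk : k ≠ 0) :
    ∑ p ∈ k.divisorsAntidiagonal, LamK K p.1 * (aK K p.2 : ℝ) = (aK K k : ℝ) * Real.log k := by
  classical
  obtain ⟨DV, hDV⟩ : ∃ DV : Ideal (𝓞 K) → Finset (Ideal (𝓞 K)),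
      DV = fun I => if h : I ≠ ⊥ then (divisors_finite I h).toFinset else ∅ := ⟨_, rfl⟩
  have hDVs : ∀ I : Ideal (𝓞 K), I ≠ ⊥ → ∑ J ∈ DV I, vMI J = Real.log (Ideal.absNorm I) := by
    intro I hI
    rw [hDV]
    simp only
    rw [dif_pos hI]
    exact vMI_sum I hI
  have hDVm : ∀ I J : Ideal (𝓞 K), I ≠ ⊥ → (J ∈ DV I ↔ J ∣ I) := by
    intro I J hI
    rw [hDV]
    simp only
    rw [dif_pos hI, Set.Finite.mem_toFinset]
    rfl
  have hne : ∀ I ∈ zvS K k, I ≠ ⊥ := by
    intro I hI h0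
    rw [zv_mem, h0, Ideal.absNorm_bot] at hI
    exact hk hI.symm
  have hL : ∑ p ∈ k.divisorsAntidiagonal, LamK K p.1 * (aK K p.2 : ℝ) =
      ∑ p ∈ k.divisorsAntidiagonal, ∑ x ∈ zvS K p.1 ×ˢ zvS K p.2, vMI x.1 := by
    apply Finset.sum_congr rfl
    intro p _
    rw [Finset.sum_product, zv_card]
    have : LamK K p.1 = ∑ J ∈ zvS K p.1, vMI J := rfl
    rw [this, Finset.sum_mul]
    apply Finset.sum_congr rfl
    intro J _
    simp only [Finset.sum_const, nsmul_eq_mul]
    rw [mul_comm]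
  have hR : (aK K k : ℝ) * Real.log k = ∑ I ∈ zvS K k, ∑ J ∈ DV I, vMI J := by
    rw [zv_card, ← nsmul_eq_mul, ← Finset.sum_const]
    apply Finset.sum_congr rfl
    intro I hI
    rw [hDVs I (hne I hI), (zv_mem K k I).mp hI]
  rw [hL, hR, Finset.sum_sigma', Finset.sum_sigma']
  refine Finset.sum_nbij (fun y => (⟨y.2.1 * y.2.2, y.2.1⟩ : Σ _ : Ideal (𝓞 K), Ideal (𝓞 K)))
    ?_ ?_ ?_ ?_
  · rintro ⟨p, J, J'⟩ hy
    rw [Finset.mem_sigma, Finset.mem_product, Nat.mem_divisorsAntidiagonal] at hy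
    obtain ⟨⟨h1, h2⟩, h3, h4⟩ := hy
    simp only at h1 h3 h4
    rw [zv_mem] at h3 h4
    have h5 : J * J' ∈ zvS K k := by
      rw [zv_mem, map_mul, h3, h4, h1]
    rw [Finset.mem_sigma]
    exact ⟨h5, (hDVm _ _ (hne _ h5)).mpr (dvd_mul_right _ _)⟩
  · rintro ⟨p, J, J'⟩ hy ⟨q, I, I'⟩ hz h
    rw [Finset.mem_coe, Finset.mem_sigma, Finset.mem_product, Nat.mem_divisorsAntidiagonal] at hy hz
    obtain ⟨⟨h1, h2⟩, h3, h4⟩ := hy
    obtain ⟨⟨g1, g2⟩, g3, g4⟩ := hz
    simp only at h1 h3 h4 g1 g3 g4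
    rw [zv_mem] at h3 h4 g3 g4
    simp only [Sigma.mk.injEq, heq_eq_eq] at h
    obtain ⟨e1, e2⟩ := h
    subst e2
    have hJ0 : J ≠ 0 := by
      intro h0
      rw [h0] at h3
      have : Ideal.absNorm (0 : Ideal (𝓞 K)) = 0 := map_zero _
      rw [this] at h3
      rw [← h3, zero_mul] at h1
      exact hk h1.symm
    have e3 := mul_left_cancel₀ hJ0 e1
    subst e3
    have e4 : p = q := Prod.ext (by rw [← h3, ← g3]) (by rw [← h4, ← g4])
    subst e4
    rfl
  · rintro ⟨I, J⟩ hz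
    rw [Finset.mem_coe, Finset.mem_sigma] at hz
    obtain ⟨h1, h2⟩ := hz
    simp only at h1 h2
    obtain ⟨c, hc⟩ := (hDVm I J (hne I h1)).mp h2
    have h3 := (zv_mem K k I).mp h1
    refine ⟨⟨(Ideal.absNorm J, Ideal.absNorm c), J, c⟩, ?_, ?_⟩
    · rw [Finset.mem_coe, Finset.mem_sigma, Finset.mem_product, Nat.mem_divisorsAntidiagonal]
      refine ⟨⟨?_, hk⟩, ?_, ?_⟩
      · simp only
        rw [← map_mul, ← hc, h3]
      · simp only
        rw [zv_mem]
      · simp only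
        rw [zv_mem]
    · simp only
      rw [← hc]
  · rintro ⟨p, J, J'⟩ _
    rfl

theorem lser_id (K : Type*) [Field K] [NumberField K]
    (h1 : ∀ s : ℂ, 1 < s.re → LSeriesSummable (fun k => ((aK K k : ℝ) : ℂ)) s)
    (h2 : ∀ s : ℂ, 1 < s.re → LSeriesSummable (fun k => (LamK K k : ℂ)) s) (s : ℂ)
    (hs : 1 < s.re) :
    LSeries (fun k => (LamK K k : ℂ)) s * LSeries (fun k => ((aK K k : ℝ) : ℂ)) s =
      -deriv (LSeries (fun k => ((aK K k : ℝ) : ℂ))) s := by
  have hab : LSeries.abscissaOfAbsConv (fun k => ((aK K k : ℝ) : ℂ)) ≤ (1 : ℝ) := by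
    apply LSeries.abscissaOfAbsConv_le_of_forall_lt_LSeriesSummable
    intro y hy
    exact h1 y (by simpa using hy)
  rw [LSeries_deriv (lt_of_le_of_lt hab (by exact_mod_cast hs)), neg_neg,
    ← LSeries_convolution' (h2 s hs) (h1 s hs)]
  apply LSeries_congr
  intro n hn
  rw [LSeries.convolution_def]
  simp only
  unfold LSeries.logMul
  have h3 := conv_id K n hn
  have h4 : Complex.log n = ((Real.log n : ℝ) : ℂ) := Complex.natCast_log.symm
  rw [h4, mul_comm, ← Complex.ofReal_mul, ← h3]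
  push_cast
  rfl

end H17PIT
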