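import Pool.Agent.H17.PIT.ZC
import Pool.Agent.H17.PIT.ZN
import Pool.Agent.H17.PIT.ZV
import Pool.Agent.H17.PIT.ZL
import Pool.Agent.H17.PIT.WebB
import Pool.Agent.H17.PNT

/-!
Row ZP (about 70 lines): prime ideal theorem for the psi function of K.

PROOF. weber K and cont_sum (a = aK K, δ = 1/n > 0) give g on {1 - δ < Re s}, g 1 = κ ≠ 0. nonvanish (Λ = LamK K, Z = LSeries aK; lam_nonneg, lam_summable, lser_id) gives g ≠ 0 on Re s ≥ 1. Apply Pool.Agent.H17.wienerIkehara with f = LamK K, A = 1, C from lam_cheb and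
 F s = - deriv g s / g s: continuous on {1 ≤ Re s} (g analytic on the open set {1 - δ < Re s}: DifferentiableOn.deriv, continuousOn_div); for Re s > 1: g = (z - 1) Z near s, so g' / g = 1/(s-1) + Z'/Z (Z s ≠ 0 since g s ≠ 0) and LSeries Λ s = - Z'/Z (lser_id), so
 F s = LSeries Λ s - 1/(s-1). LSeries aK is differentiable at s: LSeries_differentiableOn / LSeries_hasDerivAt with abscissa ≤ 1.
-/

open NumberField Filter Topology

namespace H17PIT

theorem psi_pit (K : Type*) [Field K] [NumberField K] :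
    Tendsto (fun x : ℝ => (∑ k ∈ Finset.Icc 1 ⌊x⌋₊, LamK K k) / x) atTop (𝓝 1) := by
  obtain ⟨κ, C, hκ, hW⟩ := weber K
  have hn : (0 : ℝ) < Module.finrank ℚ K := by
    exact_mod_cast Module.finrank_pos (R := ℚ) (M := K)
  obtain ⟨hsum, g, hg, hg1, hgZ⟩ := cont_sum (fun k => (aK K k : ℝ)) (fun k => Nat.cast_nonneg _)
    κ C (1 / (Module.finrank ℚ K : ℝ)) (by positivity) hW
  have hδ : 0 < 1 / (Module.finrank ℚ K : ℝ) := by positivity
  obtain ⟨δ, hδe⟩ : ∃ δ, δ = 1 / (Module.finrank ℚ K : ℝ) := ⟨_, rfl⟩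
  rw [← hδe] at hg hδ
  have hg1' : g 1 ≠ 0 := by
    rw [hg1, Ne, Complex.ofReal_eq_zero]
    exact hκ.ne'
  have hL := lser_id K hsum (fun s hs => lam_summable K s hs)
  have hne := nonvanish (LamK K) (lam_nonneg K) (fun s hs => lam_summable K s hs)
    (LSeries (fun k => ((aK K k : ℝ) : ℂ))) g δ hδ hg hg1' hgZ hL
  have hUo : IsOpen {s : ℂ | 1 - δ < s.re} := isOpen_lt continuous_const Complex.continuous_re
  obtain ⟨C', hC'⟩ := lam_cheb K
  refine Pool.Agent.H17.wienerIkehara (lam_nonneg K) hC' (A := 1)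
    (F := fun s => -deriv g s / g s) ?_ ?_
  · intro s hs
    have hs1 : 1 ≤ s.re := hs
    have hsU : s ∈ {s : ℂ | 1 - δ < s.re} := by
      simp only [Set.mem_ofPred_eq]
      linarith
    have h1 : AnalyticAt ℂ g s := (hg.analyticOnNhd hUo) s hsU
    exact ((h1.deriv.continuousAt.neg).div h1.continuousAt (hne s hs1)).continuousWithinAt
  · intro s hs
    have hs1 : s - 1 ≠ 0 := by
      intro h0
      have := congrArg Complex.re h0
      simp at this
      linarith
    have hopen : ∀ᶠ z in 𝓝 s, 1 < z.re :=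
      (isOpen_lt continuous_const Complex.continuous_re).mem_nhds hs
    have hge : g =ᶠ[𝓝 s] fun z => (z - 1) * LSeries (fun k => ((aK K k : ℝ) : ℂ)) z := by
      filter_upwards [hopen] with z hz
      exact hgZ z hz
    have hab : LSeries.abscissaOfAbsConv (fun k => ((aK K k : ℝ) : ℂ)) ≤ (1 : ℝ) := by
      apply LSeries.abscissaOfAbsConv_le_of_forall_lt_LSeriesSummable
      intro y hy
      exact hsum y (by simpa using hy)
    have hZd : DifferentiableAt ℂ (LSeries (fun k => ((aK K k : ℝ) : ℂ))) s := by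
      refine (LSeries_analyticOnNhd _ s ?_).differentiableAt
      exact lt_of_le_of_lt hab (by exact_mod_cast hs)
    have hd1 : HasDerivAt (fun z : ℂ => z - 1) 1 s := (hasDerivAt_id s).sub_const 1
    have hgd : deriv g s = 1 * LSeries (fun k => ((aK K k : ℝ) : ℂ)) s +
        (s - 1) * deriv (LSeries (fun k => ((aK K k : ℝ) : ℂ))) s := by
      rw [hge.deriv_eq]
      exact (hd1.mul hZd.hasDerivAt).deriv
    have hgs := hgZ s hs
    have hg0 := hne s hs.le
    have hZ0 : LSeries (fun k => ((aK K k : ℝ) : ℂ)) s ≠ 0 := by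
      intro h0
      rw [h0, mul_zero] at hgs
      exact hg0 hgs
    have hLs := hL s hs
    have hL2 : LSeries (fun k => (LamK K k : ℂ)) s =
        -deriv (LSeries (fun k => ((aK K k : ℝ) : ℂ))) s /
          LSeries (fun k => ((aK K k : ℝ) : ℂ)) s := by
      rw [← hLs, mul_div_cancel_right₀ _ hZ0]
    rw [hL2, hgd, hgs, Complex.ofReal_one]
    revert hZ0
    generalize LSeries (fun k => ((aK K k : ℝ) : ℂ)) s = Y
    generalize deriv (LSeries (fun k => ((aK K k : ℝ) : ℂ))) s = D
    intro hZ0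
    field_simp
    ring

end H17PIT
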